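import Mathlib

/-! The periodic cell in the plane and the vanishing of integrals of periodic derivatives. -/

set_option autoImplicit false

open MeasureTheory Set Real

namespace Pool.Agent.MP_515557_an.H11

abbrev V : Type := Fin 2 → ℝ
abbrev E : Type := Fin 2 → Fin 2 → ℝ

/-- The closed square of side `2 π R` centred at the origin. -/
def Q (R : ℝ) : Set V := Icc (fun _ => -(π * R)) (fun _ => π * R)

theorem isCompact_Q (R : ℝ) : IsCompact (Q R) := isCompact_Icc

theorem measurableSet_Q (R : ℝ) : MeasurableSet (Q R) := measurableSet_Icc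

theorem volume_Q_lt_top (R : ℝ) : volume (Q R) < ⊤ := (isCompact_Q R).measure_lt_top

theorem integrableOn_Q {G : Type*} [NormedAddCommGroup G] (R : ℝ) {f : V → G}
    (hf : Continuous f) : IntegrableOn f (Q R) volume :=
  hf.continuousOn.integrableOn_compact (isCompact_Q R)

theorem mem_Q {R : ℝ} {x : V} : x ∈ Q R ↔ ∀ i, -(π * R) ≤ x i ∧ x i ≤ π * R := by
  simp only [Q, mem_Icc, Pi.le_def]
  exact ⟨fun h i => ⟨h.1 i, h.2 i⟩, fun h => ⟨fun i => (h i).1, fun i => (h i).2⟩⟩

theorem int_Q_prod (R : ℝ) (f : V → ℝ) :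
    ∫ x in Q R, f x =
      ∫ p in (Icc (-(π * R)) (π * R)) ×ˢ (Icc (-(π * R)) (π * R)), f ![p.1, p.2] := by
  have h := (volume_preserving_finTwoArrow ℝ).setIntegral_preimage_emb
    (MeasurableEquiv.measurableEmbedding _) (fun p : ℝ × ℝ => f ![p.1, p.2])
    ((Icc (-(π * R)) (π * R)) ×ˢ (Icc (-(π * R)) (π * R)))
  rw [← h]
  have hs : (MeasurableEquiv.finTwoArrow : V ≃ᵐ ℝ × ℝ) ⁻¹'
      ((Icc (-(π * R)) (π * R)) ×ˢ (Icc (-(π * R)) (π * R))) = Q R := by
    ext x
    simp only [mem_Q, Fin.forall_fin_two, mem_preimage, mem_prod, mem_Icc]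
    rfl
  rw [hs]
  refine setIntegral_congr_fun (measurableSet_Q R) fun x _ => ?_
  congr 1
  ext i
  fin_cases i <;> simp [MeasurableEquiv.finTwoArrow]

theorem cont_pair : Continuous (fun p : ℝ × ℝ => (![p.1, p.2] : V)) := by
  refine continuous_pi fun i => ?_
  fin_cases i <;> simp <;> fun_prop

theorem int_Q_iter (R : ℝ) (hR : 0 < R) (f : V → ℝ) (hf : Continuous f) :
    ∫ x in Q R, f x =
      ∫ s in (-(π * R))..(π * R), ∫ t in (-(π * R))..(π * R), f ![s, t] := by
  have hle : -(π * R) ≤ π * R := by have := pi_pos; nlinarith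
  rw [int_Q_prod, Measure.volume_eq_prod, setIntegral_prod]
  · simp_rw [intervalIntegral.integral_of_le hle, integral_Icc_eq_integral_Ioc]
  · exact (hf.comp cont_pair).continuousOn.integrableOn_compact (isCompact_Icc.prod isCompact_Icc)

theorem int_Q_iter' (R : ℝ) (hR : 0 < R) (f : V → ℝ) (hf : Continuous f) :
    ∫ x in Q R, f x =
      ∫ t in (-(π * R))..(π * R), ∫ s in (-(π * R))..(π * R), f ![s, t] := by
  have hle : -(π * R) ≤ π * R := by have := pi_pos; nlinarith
  rw [int_Q_iter R hR f hf]
  apply intervalIntegral_intervalIntegral_swap (F := fun s t => f ![s, t])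
  have : IntegrableOn (fun p : ℝ × ℝ => f ![p.1, p.2])
      ((Icc (-(π * R)) (π * R)) ×ˢ (Icc (-(π * R)) (π * R))) volume :=
    (hf.comp cont_pair).continuousOn.integrableOn_compact (isCompact_Icc.prod isCompact_Icc)
  refine this.mono_set ?_
  rw [uIoc_of_le hle]
  exact prod_mono Ioc_subset_Icc_self Ioc_subset_Icc_self

/-- Unit coordinate vectors. -/
def ev (j : Fin 2) : V := Pi.single j 1

/-- The integral over the cell of a partial derivative of a periodic function vanishes. -/
theorem int_deriv_zero (R : ℝ) (hR : 0 < R) (j : Fin 2) (J J' : V → ℝ) (hJ' : Continuous J')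
    (hd : ∀ x, HasDerivAt (fun s : ℝ => J (x + s • ev j)) (J' x) 0)
    (hper : ∀ x, J (x + (2 * π * R) • ev j) = J x) : ∫ x in Q R, J' x = 0 := by
  have key : ∀ y : V, ∫ s in (-(π * R))..(π * R), J' (y + s • ev j) = 0 := by
    intro y
    have hder : ∀ s : ℝ, HasDerivAt (fun s : ℝ => J (y + s • ev j)) (J' (y + s • ev j)) s := by
      intro s
      have h1 := hd (y + s • ev j)
      have h2 : HasDerivAt (fun u : ℝ => J (y + s • ev j + (u - s) • ev j)) (J' (y + s • ev j)) s := by
        have h3 : HasDerivAt (fun u : ℝ => u - s) 1 s := (hasDerivAt_id s).sub_const s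
        have h4 : HasDerivAt (fun r : ℝ => J (y + s • ev j + r • ev j)) (J' (y + s • ev j))
            ((fun u : ℝ => u - s) s) := by simpa using h1
        simpa [Function.comp_def] using HasDerivAt.comp (h := fun u : ℝ => u - s) s h4 h3
      convert h2 using 3 with u
      rw [add_assoc, ← add_smul]
      congr 2
      ring
    rw [intervalIntegral.integral_eq_sub_of_hasDerivAt (fun s _ => hder s)]
    · have := hper (y + (-(π * R)) • ev j)
      rw [add_assoc, ← add_smul] at this
      have e : -(π * R) + 2 * π * R = π * R := by ring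
      rw [e] at this
      rw [this, sub_self]
    · apply Continuous.intervalIntegrable
      fun_prop
  fin_cases j
  · rw [int_Q_iter' R hR J' hJ']
    have : ∀ t : ℝ, ∫ s in (-(π * R))..(π * R), J' ![s, t] = 0 := by
      intro t
      rw [← key ![0, t]]
      congr 1
      ext s
      congr 1
      ext i
      fin_cases i <;> simp [ev]
    simp [this]
  · rw [int_Q_iter R hR J' hJ']
    have : ∀ s : ℝ, ∫ t in (-(π * R))..(π * R), J' ![s, t] = 0 := by
      intro s
      rw [← key ![s, 0]]
      congr 1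
      ext t
      congr 1
      ext i
      fin_cases i <;> simp [ev]
    simp [this]

end Pool.Agent.MP_515557_an.H11
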