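import Pool.Agent.MP_515557_an.H11.Cell

/-! Trigonometric gradient fields and the heat flow criterion. -/

set_option autoImplicit false

open MeasureTheory Set Real Filter Topology

namespace Pool.Agent.MP_515557_an.H11

/-- The phase of the wave with integer wave vector `k` and period `2 π R`. -/
noncomputable def ph (R : ℝ) (k : Fin 2 → ℤ) (x : V) : ℝ := ((k 0 : ℝ) * x 0 + (k 1 : ℝ) * x 1) / R

/-- A finite sum of plane waves with matrix amplitudes. -/
noncomputable def trig {ι : Type} [Fintype ι] (R : ℝ) (k : ι → Fin 2 → ℤ) (φ : ι → ℝ) (M : ι → E)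
    (x : V) : E := ∑ i, cos (ph R (k i) x + φ i) • M i

theorem continuous_ph (R : ℝ) (k : Fin 2 → ℤ) : Continuous (ph R k) := by
  unfold ph; fun_prop

theorem continuous_trig {ι : Type} [Fintype ι] (R : ℝ) (k : ι → Fin 2 → ℤ) (φ : ι → ℝ)
    (M : ι → E) : Continuous (trig R k φ M) := by
  unfold trig
  refine continuous_finsetSum _ fun i _ => ?_
  have := continuous_ph R (k i)
  fun_prop

theorem ph_add (R : ℝ) (k : Fin 2 → ℤ) (x : V) (j : Fin 2) (s : ℝ) :
    ph R k (x + s • ev j) = ph R k x + s * ((k j : ℝ) / R) := by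
  fin_cases j <;> simp [ph, ev] <;> ring

theorem trig_per {ι : Type} [Fintype ι] (R : ℝ) (hR : 0 < R) (k : ι → Fin 2 → ℤ) (φ : ι → ℝ)
    (M : ι → E) (j : Fin 2) (x : V) : trig R k φ M (x + (2 * π * R) • ev j) = trig R k φ M x := by
  unfold trig
  refine Finset.sum_congr rfl fun i _ => ?_
  rw [ph_add]
  have : ph R (k i) x + 2 * π * R * ((k i j : ℝ) / R) + φ i
      = ph R (k i) x + φ i + (k i j : ℝ) * (2 * π) := by
    field_simp; ring
  rw [this, cos_add_int_mul_two_pi]

theorem trig_deriv {ι : Type} [Fintype ι] (R : ℝ) (k : ι → Fin 2 → ℤ) (φ : ι → ℝ)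
    (M : ι → E) (j : Fin 2) (x : V) :
    HasDerivAt (fun s : ℝ => trig R k φ M (x + s • ev j))
      (trig R k (fun i => φ i + π / 2) (fun i => ((k i j : ℝ) / R) • M i) x) 0 := by
  unfold trig
  refine HasDerivAt.fun_sum fun i _ => ?_
  simp_rw [ph_add]
  have h1 : HasDerivAt (fun s : ℝ => ph R (k i) x + s * ((k i j : ℝ) / R) + φ i)
      ((k i j : ℝ) / R) 0 := by
    simpa using (((hasDerivAt_id (0 : ℝ)).mul_const ((k i j : ℝ) / R)).const_add
      (ph R (k i) x)).add_const (φ i)
  have h2 := (h1.cos).smul_const (M i)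
  convert h2 using 1
  rw [smul_smul, ← add_assoc, cos_add_pi_div_two]
  simp

/-- Trigonometric quasiconvexity: the Jensen inequality for trigonometric gradient fields. -/
def TQC (W : E → ℝ) : Prop :=
  ∀ (R : ℝ), 0 < R → ∀ (ι : Type) [Fintype ι] (k : ι → Fin 2 → ℤ) (φ : ι → ℝ) (a : ι → V)
    (F₀ : E), W F₀ * (volume (Q R)).toReal ≤
      ∫ x in Q R, W (F₀ + trig R k φ (fun i r c => a i r * (k i c : ℝ)) x)

section criterion

variable (W : E → ℝ) (P : E → E → ℝ) (H : E → E → E → ℝ) (Θ : E → E → ℝ) (K : E → E → E → ℝ)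
  (a₀ a₁ a₂ : ℝ)

/-- The data of a heat flow certificate. -/
structure Cert : Prop where
  cW : Continuous W
  cP : Continuous fun p : E × E => P p.1 p.2
  cH : Continuous fun p : E × E × E => H p.1 p.2.1 p.2.2
  cΘ : Continuous fun p : E × E => Θ p.1 p.2
  cK : Continuous fun p : E × E × E => K p.1 p.2.1 p.2.2
  dW : ∀ (γ : ℝ → E) (γ' : E) (t : ℝ), HasDerivAt γ γ' t →
    HasDerivAt (fun s => W (γ s)) (P (γ t) γ') t
  dP : ∀ (γ η : ℝ → E) (γ' η' : E) (t : ℝ), HasDerivAt γ γ' t → HasDerivAt η η' t →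
    HasDerivAt (fun s => P (γ s) (η s)) (H (γ t) γ' (η t) + P (γ t) η') t
  dΘ : ∀ (γ η : ℝ → E) (γ' η' : E) (t : ℝ), HasDerivAt γ γ' t → HasDerivAt η η' t →
    HasDerivAt (fun s => Θ (γ s) (η s)) (K (γ t) γ' (η t) + Θ (γ t) η') t
  addP : ∀ F X Y, P F (X + Y) = P F X + P F Y
  pos : ∀ u v : ℝ, (u ≠ 0 ∨ v ≠ 0) → 0 < a₀ * u ^ 2 + 2 * a₁ * u * v + a₂ * v ^ 2
  ineq : ∀ F X Y : E, (∀ r, X r 1 = Y r 0) →
    0 ≤ H F X (a₀ • X + a₁ • Y) + H F Y (a₁ • X + a₂ • Y) + K F X Y - K F Y X

variable {W P H Θ K a₀ a₁ a₂}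

/-- The symbol of the elliptic operator at the wave vector `k / R`. -/
noncomputable def lam (a₀ a₁ a₂ R : ℝ) (k : Fin 2 → ℤ) : ℝ :=
  a₀ * ((k 0 : ℝ) / R) ^ 2 + 2 * a₁ * ((k 0 : ℝ) / R) * ((k 1 : ℝ) / R) + a₂ * ((k 1 : ℝ) / R) ^ 2

theorem dissipation (h : Cert W P H Θ K a₀ a₁ a₂) {ι : Type} [Fintype ι] (R : ℝ) (hR : 0 < R)
    (k : ι → Fin 2 → ℤ) (φ : ι → ℝ) (M : ι → E)
    (hM : ∀ i r, (k i 0 : ℝ) * M i r 1 = (k i 1 : ℝ) * M i r 0) (F₀ : E) :
    ∫ x in Q R, P (F₀ + trig R k φ M x)
      (trig R k φ (fun i => (-(lam a₀ a₁ a₂ R (k i))) • M i) x) ≤ 0 := by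
  set F : V → E := fun x => F₀ + trig R k φ M x with hF
  set X : Fin 2 → V → E := fun j =>
    trig R k (fun i => φ i + π / 2) (fun i => ((k i j : ℝ) / R) • M i) with hX
  set Y : Fin 2 → Fin 2 → V → E := fun j l =>
    trig R k (fun i => φ i + π / 2 + π / 2)
      (fun i => ((k i l : ℝ) / R) • ((k i j : ℝ) / R) • M i) with hY
  have cF : Continuous F := continuous_const.add (continuous_trig R k φ M)
  have cX : ∀ j, Continuous (X j) := fun j => continuous_trig _ _ _ _
  have cY : ∀ j l, Continuous (Y j l) := fun j l => continuous_trig _ _ _ _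
  have dF : ∀ j x, HasDerivAt (fun s : ℝ => F (x + s • ev j)) (X j x) 0 := fun j x =>
    (trig_deriv R k φ M j x).const_add F₀
  have dX : ∀ j l x, HasDerivAt (fun s : ℝ => X j (x + s • ev l)) (Y j l x) 0 := fun j l x =>
    trig_deriv R k _ _ l x
  have pF : ∀ j x, F (x + (2 * π * R) • ev j) = F x := fun j x => by
    simp only [hF, trig_per R hR]
  have pX : ∀ l j x, X l (x + (2 * π * R) • ev j) = X l x := fun l j x => trig_per R hR _ _ _ j x
  have sY : Y 0 1 = Y 1 0 := by
    simp only [hY]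
    congr 1
    ext i r c
    simp only [Pi.smul_apply, smul_eq_mul]
    ring
  have hcomp : ∀ x r, X 0 x r 1 = X 1 x r 0 := by
    intro x r
    simp only [hX, trig, Finset.sum_apply, Pi.smul_apply, smul_eq_mul]
    refine Finset.sum_congr rfl fun i _ => ?_
    have := hM i r
    congr 1
    field_simp
    linarith
  have hL : ∀ x, trig R k φ (fun i => (-(lam a₀ a₁ a₂ R (k i))) • M i) x
      = (a₀ • Y 0 0 x + a₁ • Y 1 0 x) + (a₁ • Y 0 1 x + a₂ • Y 1 1 x) := by
    intro x
    ext r c
    simp only [hY, trig, Finset.sum_apply, Pi.smul_apply, smul_eq_mul, Pi.add_apply,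
      Finset.mul_sum, ← Finset.sum_add_distrib]
    refine Finset.sum_congr rfl fun i _ => ?_
    have e : ph R (k i) x + (φ i + π / 2 + π / 2) = ph R (k i) x + φ i + π := by ring
    rw [e, cos_add_pi, lam]
    ring
  have c0 : Continuous fun x => H (F x) (X 0 x) (a₀ • X 0 x + a₁ • X 1 x)
      + P (F x) (a₀ • Y 0 0 x + a₁ • Y 1 0 x) + (K (F x) (X 0 x) (X 1 x) + Θ (F x) (Y 1 0 x)) := by
    have h1 := h.cH.comp (cF.prodMk ((cX 0).prodMk (((cX 0).const_smul a₀).add
      ((cX 1).const_smul a₁))))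
    have h2 := h.cP.comp (cF.prodMk (((cY 0 0).const_smul a₀).add ((cY 1 0).const_smul a₁)))
    have h3 := h.cK.comp (cF.prodMk ((cX 0).prodMk (cX 1)))
    have h4 := h.cΘ.comp (cF.prodMk (cY 1 0))
    exact (h1.add h2).add (h3.add h4)
  have c1 : Continuous fun x => H (F x) (X 1 x) (a₁ • X 0 x + a₂ • X 1 x)
      + P (F x) (a₁ • Y 0 1 x + a₂ • Y 1 1 x) - (K (F x) (X 1 x) (X 0 x) + Θ (F x) (Y 0 1 x)) := by
    have h1 := h.cH.comp (cF.prodMk ((cX 1).prodMk (((cX 0).const_smul a₁).add
      ((cX 1).const_smul a₂))))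
    have h2 := h.cP.comp (cF.prodMk (((cY 0 1).const_smul a₁).add ((cY 1 1).const_smul a₂)))
    have h3 := h.cK.comp (cF.prodMk ((cX 1).prodMk (cX 0)))
    have h4 := h.cΘ.comp (cF.prodMk (cY 0 1))
    exact (h1.add h2).sub (h3.add h4)
  have z0 := int_deriv_zero R hR 0
    (fun x => P (F x) (a₀ • X 0 x + a₁ • X 1 x) + Θ (F x) (X 1 x)) _ c0
    (fun x => by
      have h1 := h.dP _ _ _ _ 0 (dF 0 x)
        (((dX 0 0 x).const_smul a₀).add ((dX 1 0 x).const_smul a₁))
      have h2 := h.dΘ _ _ _ _ 0 (dF 0 x) (dX 1 0 x)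
      simpa using h1.fun_add h2)
    (fun x => by simp only [pF, pX])
  have z1 := int_deriv_zero R hR 1
    (fun x => P (F x) (a₁ • X 0 x + a₂ • X 1 x) - Θ (F x) (X 0 x)) _ c1
    (fun x => by
      have h1 := h.dP _ _ _ _ 0 (dF 1 x)
        (((dX 0 1 x).const_smul a₁).add ((dX 1 1 x).const_smul a₂))
      have h2 := h.dΘ _ _ _ _ 0 (dF 1 x) (dX 0 1 x)
      simpa using h1.fun_sub h2)
    (fun x => by simp only [pF, pX])
  have hsum := integral_add (integrableOn_Q R c0) (integrableOn_Q R c1)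
  rw [z0, z1, add_zero] at hsum
  rw [← hsum]
  refine setIntegral_mono_on ?_ ((integrableOn_Q R c0).add (integrableOn_Q R c1))
    (measurableSet_Q R) fun x _ => ?_
  · exact integrableOn_Q R (h.cP.comp (cF.prodMk (continuous_trig _ _ _ _)))
  · rw [hL, h.addP, sY]
    have := h.ineq (F x) (X 0 x) (X 1 x) (hcomp x)
    linarith

theorem Cert.tqc (h : Cert W P H Θ K a₀ a₁ a₂) : TQC W := by
  intro R hR ι _ k φ a F₀
  set M : ι → E := fun i r c => a i r * (k i c : ℝ) with hMdef
  set l : ι → ℝ := fun i => lam a₀ a₁ a₂ R (k i) with hl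
  set F : ℝ → V → E := fun t x => F₀ + trig R k φ (fun i => exp (-(l i) * t) • M i) x with hF
  set G : ℝ → V → E := fun t x =>
    trig R k φ (fun i => (-(l i)) • exp (-(l i) * t) • M i) x with hG
  have cF : Continuous fun p : ℝ × V => F p.1 p.2 := by
    simp only [hF, trig]
    refine continuous_const.add (continuous_finsetSum _ fun i _ => ?_)
    have := continuous_ph R (k i)
    fun_prop
  have cG : Continuous fun p : ℝ × V => G p.1 p.2 := by
    simp only [hG, trig]
    refine continuous_finsetSum _ fun i _ => ?_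
    have := continuous_ph R (k i)
    fun_prop
  have dF : ∀ x t, HasDerivAt (fun s => F s x) (G t x) t := by
    intro x t
    simp only [hF, hG, trig]
    refine HasDerivAt.const_add _ (HasDerivAt.fun_sum fun i _ => ?_)
    have h1 : HasDerivAt (fun s : ℝ => -(l i) * s) (-(l i)) t := by
      simpa using (hasDerivAt_id t).const_mul (-(l i))
    have h2 := ((h1.exp).smul_const (M i)).fun_const_smul (cos (ph R (k i) x + φ i))
    rw [smul_smul (-(l i)), mul_comm (-(l i))]
    exact h2
  have cPG : Continuous fun p : ℝ × V => P (F p.1 p.2) (G p.1 p.2) := h.cP.comp (cF.prodMk cG)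
  have mono : ∀ T : ℝ, 0 ≤ T → ∫ x in Q R, W (F T x) ≤ ∫ x in Q R, W (F 0 x) := by
    intro T hT
    have cW : ∀ t, Continuous fun x => W (F t x) := fun t =>
      h.cW.comp (continuous_const.add (continuous_trig _ _ _ _))
    have e1 : ∀ x, W (F T x) - W (F 0 x) = ∫ t in (0 : ℝ)..T, P (F t x) (G t x) := by
      intro x
      rw [intervalIntegral.integral_eq_sub_of_hasDerivAt
        (fun t _ => h.dW (fun s => F s x) (G t x) t (dF x t))]
      exact (cPG.comp (Continuous.prodMk_left x)).intervalIntegrable _ _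
    have e2 : ∫ x in Q R, (W (F T x) - W (F 0 x)) =
        ∫ t in (0 : ℝ)..T, ∫ x in Q R, P (F t x) (G t x) := by
      simp_rw [e1]
      symm
      apply intervalIntegral_integral_swap (f := fun t x => P (F t x) (G t x))
      rw [Measure.prod_restrict, uIoc_of_le hT]
      have : IntegrableOn (fun p : ℝ × V => P (F p.1 p.2) (G p.1 p.2)) (Icc 0 T ×ˢ Q R)
          (volume.prod volume) :=
        cPG.continuousOn.integrableOn_compact (isCompact_Icc.prod (isCompact_Q R))
      exact this.mono_set (prod_mono Ioc_subset_Icc_self subset_rfl)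
    have e3 : ∫ t in (0 : ℝ)..T, ∫ x in Q R, P (F t x) (G t x) ≤ 0 := by
      rw [intervalIntegral.integral_of_le hT]
      refine setIntegral_nonpos measurableSet_Ioc fun t _ => ?_
      refine dissipation h R hR k φ (fun i => exp (-(l i) * t) • M i) (fun i r => ?_) F₀
      simp only [hMdef, Pi.smul_apply, smul_eq_mul]
      ring
    rw [integral_sub (integrableOn_Q R (cW T)) (integrableOn_Q R (cW 0))] at e2
    linarith
  have lim : Tendsto (fun T : ℝ => ∫ x in Q R, W (F T x)) atTop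
      (𝓝 (∫ _x in Q R, W F₀)) := by
    have hcoef : ∀ i, Tendsto (fun T : ℝ => exp (-(l i) * T) • M i) atTop (𝓝 0) := by
      intro i
      by_cases hk : (k i 0 : ℝ) / R ≠ 0 ∨ (k i 1 : ℝ) / R ≠ 0
      · have hp : 0 < l i := h.pos _ _ hk
        have h1 : Tendsto (fun T : ℝ => -(l i) * T) atTop atBot :=
          tendsto_id.const_mul_atTop_of_neg (by linarith)
        simpa using (tendsto_exp_atBot.comp h1).smul_const (M i)
      · push Not at hk
        have h0 : (k i 0 : ℝ) = 0 := by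
          have := hk.1; field_simp at this; simpa using this
        have h1 : (k i 1 : ℝ) = 0 := by
          have := hk.2; field_simp at this; simpa using this
        have : M i = 0 := by
          ext r c
          fin_cases c <;> simp [hMdef, h0, h1]
        simp [this]
    have cI : Continuous fun N : ι → E => ∫ x in Q R, W (F₀ + trig R k φ N x) := by
      refine continuous_parametric_integral_of_continuous ?_ (isCompact_Q R)
      refine h.cW.comp (continuous_const.add ?_)
      simp only [trig]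
      refine continuous_finsetSum _ fun i _ => ?_
      have := continuous_ph R (k i)
      fun_prop
    have h2 := (cI.tendsto 0).comp (tendsto_pi_nhds.2 hcoef)
    simpa [Function.comp_def, trig, hF] using h2
  have fin := le_of_tendsto lim (Filter.eventually_atTop.2 ⟨0, mono⟩)
  simp only [integral_const, measureReal_restrict_apply_univ, smul_eq_mul] at fin
  simp only [hF, mul_zero, exp_zero, one_smul] at fin
  rw [mul_comm]
  exact fin

end criterion

end Pool.Agent.MP_515557_an.H11
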