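import Pool.Agent.MP_515557_an.H11.Qc

/-! Heat flow certificates for isotropic polynomials of degree at most four. -/

set_option autoImplicit false

open MeasureTheory Set Real Filter Topology

namespace Pool.Agent.MP_515557_an.H11

def z1 (F : E) : ℝ := F 0 0 + F 1 1
def z2 (F : E) : ℝ := F 1 0 - F 0 1
def w1 (F : E) : ℝ := F 0 0 - F 1 1
def w2 (F : E) : ℝ := F 1 0 + F 0 1

def sz (F X : E) : ℝ := z1 F * z1 X + z2 F * z2 X
def iz (F X : E) : ℝ := z1 F * z2 X - z2 F * z1 X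
def sw (F X : E) : ℝ := w1 F * w1 X + w2 F * w2 X
def iw (F X : E) : ℝ := w1 F * w2 X - w2 F * w1 X

section derivs

variable {γ η : ℝ → E} {γ' η' : E} {t : ℝ}

theorem d_entry (h : HasDerivAt γ γ' t) (r c : Fin 2) :
    HasDerivAt (fun s => γ s r c) (γ' r c) t :=
  hasDerivAt_pi.1 (hasDerivAt_pi.1 h r) c

theorem d_z1 (h : HasDerivAt γ γ' t) : HasDerivAt (fun s => z1 (γ s)) (z1 γ') t :=
  (d_entry h 0 0).fun_add (d_entry h 1 1)
theorem d_z2 (h : HasDerivAt γ γ' t) : HasDerivAt (fun s => z2 (γ s)) (z2 γ') t :=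
  (d_entry h 1 0).fun_sub (d_entry h 0 1)
theorem d_w1 (h : HasDerivAt γ γ' t) : HasDerivAt (fun s => w1 (γ s)) (w1 γ') t :=
  (d_entry h 0 0).fun_sub (d_entry h 1 1)
theorem d_w2 (h : HasDerivAt γ γ' t) : HasDerivAt (fun s => w2 (γ s)) (w2 γ') t :=
  (d_entry h 1 0).fun_add (d_entry h 0 1)

theorem d_sz (h : HasDerivAt γ γ' t) (g : HasDerivAt η η' t) :
    HasDerivAt (fun s => sz (γ s) (η s)) (sz γ' (η t) + sz (γ t) η') t := by
  refine (((d_z1 h).fun_mul (d_z1 g)).fun_add ((d_z2 h).fun_mul (d_z2 g))).congr_deriv ?_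
  simp only [sz]; ring
theorem d_iz (h : HasDerivAt γ γ' t) (g : HasDerivAt η η' t) :
    HasDerivAt (fun s => iz (γ s) (η s)) (iz γ' (η t) + iz (γ t) η') t := by
  refine (((d_z1 h).fun_mul (d_z2 g)).fun_sub ((d_z2 h).fun_mul (d_z1 g))).congr_deriv ?_
  simp only [iz]; ring
theorem d_sw (h : HasDerivAt γ γ' t) (g : HasDerivAt η η' t) :
    HasDerivAt (fun s => sw (γ s) (η s)) (sw γ' (η t) + sw (γ t) η') t := by
  refine (((d_w1 h).fun_mul (d_w1 g)).fun_add ((d_w2 h).fun_mul (d_w2 g))).congr_deriv ?_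
  simp only [sw]; ring
theorem d_iw (h : HasDerivAt γ γ' t) (g : HasDerivAt η η' t) :
    HasDerivAt (fun s => iw (γ s) (η s)) (iw γ' (η t) + iw (γ t) η') t := by
  refine (((d_w1 h).fun_mul (d_w2 g)).fun_sub ((d_w2 h).fun_mul (d_w1 g))).congr_deriv ?_
  simp only [iw]; ring
theorem d_S (h : HasDerivAt γ γ' t) :
    HasDerivAt (fun s => sz (γ s) (γ s)) (2 * sz (γ t) γ') t := by
  refine (d_sz h h).congr_deriv ?_
  simp only [sz]; ring
theorem d_T (h : HasDerivAt γ γ' t) :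
    HasDerivAt (fun s => sw (γ s) (γ s)) (2 * sw (γ t) γ') t := by
  refine (d_sw h h).congr_deriv ?_
  simp only [sw]; ring

end derivs

/-- The general isotropic polynomial of degree at most four. -/
def Wiso (A B C d e f : ℝ) (F : E) : ℝ :=
  A * (sz F F * sz F F) + 2 * B * (sz F F * sw F F) + C * (sw F F * sw F F)
    + d * sz F F + e * sw F F + f

def Piso (A B C d e : ℝ) (F X : E) : ℝ :=
  (2 * A * sz F F + 2 * B * sw F F + d) * (2 * sz F X)
    + (2 * B * sz F F + 2 * C * sw F F + e) * (2 * sw F X)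

def Hiso (A B C d e : ℝ) (F Y X : E) : ℝ :=
  (2 * A * (2 * sz F Y) + 2 * B * (2 * sw F Y)) * (2 * sz F X)
    + (2 * A * sz F F + 2 * B * sw F F + d) * (2 * sz Y X)
    + (2 * B * (2 * sz F Y) + 2 * C * (2 * sw F Y)) * (2 * sw F X)
    + (2 * B * sz F F + 2 * C * sw F F + e) * (2 * sw Y X)

def Tiso (m₁ m₂ m n₁ n₂ n : ℝ) (F X : E) : ℝ :=
  (m₁ * sz F F + m₂ * sw F F + m) * iz F X + (n₁ * sz F F + n₂ * sw F F + n) * iw F X

def Kiso (m₁ m₂ m n₁ n₂ n : ℝ) (F Y X : E) : ℝ :=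
  (m₁ * (2 * sz F Y) + m₂ * (2 * sw F Y)) * iz F X + (m₁ * sz F F + m₂ * sw F F + m) * iz Y X
    + (n₁ * (2 * sz F Y) + n₂ * (2 * sw F Y)) * iw F X + (n₁ * sz F F + n₂ * sw F F + n) * iw Y X

theorem continuous_Wiso (A B C d e f : ℝ) : Continuous (Wiso A B C d e f) := by
  unfold Wiso sz sw z1 z2 w1 w2; fun_prop

theorem exists_PQR (X Y : E) (h : ∀ r, X r 1 = Y r 0) :
    ∃ P1 P2 Q1 Q2 R1 R2 : ℝ, z1 X = P1 + Q1 ∧ z2 X = P2 + Q2 ∧ z1 Y = Q2 - P2 ∧ z2 Y = P1 - Q1 ∧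
      w1 X = Q1 + R1 ∧ w2 X = Q2 + R2 ∧ w1 Y = R2 - Q2 ∧ w2 Y = Q1 - R1 := by
  refine ⟨(z1 X + z2 Y) / 2, (z2 X - z1 Y) / 2, (z1 X - z2 Y) / 2, (z2 X + z1 Y) / 2,
    (w1 X - w2 Y) / 2, (w2 X + w1 Y) / 2, ?_⟩
  simp only [z1, z2, w1, w2, ← h 0, ← h 1]
  refine ⟨?_, ?_, ?_, ?_, ?_, ?_, ?_, ?_⟩ <;> ring

theorem cert_iso (A B C d e f : ℝ) (hB : 0 ≤ B) (hde : 0 ≤ d + e)
    (hq : ∀ p q : ℝ, 0 ≤ (3 * A + B) * p ^ 2 + 4 * B * p * q + (3 * C + B) * q ^ 2) :
    Cert (Wiso A B C d e f) (Piso A B C d e) (Hiso A B C d e)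
      (Tiso (B - 3 * A) (-4 * B) (-2 * d) (4 * B) (3 * C - B) (2 * e))
      (Kiso (B - 3 * A) (-4 * B) (-2 * d) (4 * B) (3 * C - B) (2 * e)) 1 0 1 where
  cW := continuous_Wiso A B C d e f
  cP := by unfold Piso sz sw z1 z2 w1 w2; fun_prop
  cH := by unfold Hiso sz sw z1 z2 w1 w2; fun_prop
  cΘ := by unfold Tiso sz sw iz iw z1 z2 w1 w2; fun_prop
  cK := by unfold Kiso sz sw iz iw z1 z2 w1 w2; fun_prop
  dW := fun γ γ' t h => by
    have hS := d_S h
    have hT := d_T h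
    refine (((((((hS.fun_mul hS).const_mul A).fun_add ((hS.fun_mul hT).const_mul (2 * B))).fun_add
      ((hT.fun_mul hT).const_mul C)).fun_add (hS.const_mul d)).fun_add
      (hT.const_mul e)).add_const f).congr_deriv ?_
    simp only [Piso]; ring
  dP := fun γ η γ' η' t h g => by
    have hS := d_S h
    have hT := d_T h
    refine (((((hS.const_mul (2 * A)).fun_add (hT.const_mul (2 * B))).add_const d).fun_mul
      ((d_sz h g).const_mul 2)).fun_add
      ((((hS.const_mul (2 * B)).fun_add (hT.const_mul (2 * C))).add_const e).fun_mul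
      ((d_sw h g).const_mul 2))).congr_deriv ?_
    simp only [Piso, Hiso]; ring
  dΘ := fun γ η γ' η' t h g => by
    have hS := d_S h
    have hT := d_T h
    refine (((((hS.const_mul _).fun_add (hT.const_mul _)).add_const _).fun_mul
      (d_iz h g)).fun_add
      ((((hS.const_mul _).fun_add (hT.const_mul _)).add_const _).fun_mul
      (d_iw h g))).congr_deriv ?_
    simp only [Tiso, Kiso]; ring
  addP := fun F X Y => by
    simp only [Piso, sz, sw, z1, z2, w1, w2, Pi.add_apply]; ring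
  pos := fun u v h => by
    rcases h with h | h
    · have := sq_pos_of_ne_zero h
      nlinarith [sq_nonneg v]
    · have := sq_pos_of_ne_zero h
      nlinarith [sq_nonneg u]
  ineq := fun F X Y h => by
    obtain ⟨P1, P2, Q1, Q2, R1, R2, e1, e2, e3, e4, e5, e6, e7, e8⟩ := exists_PQR X Y h
    simp only [one_smul, zero_smul, add_zero, zero_add, Hiso, Kiso, sz, sw, iz, iw,
      e1, e2, e3, e4, e5, e6, e7, e8]
    generalize z1 F = a1
    generalize z2 F = a2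
    generalize w1 F = b1
    generalize w2 F = b2
    have h1 := hq (a1 * P1 + a2 * P2 + 2 * (a1 * Q1 + a2 * Q2))
      (2 * (b1 * Q1 + b2 * Q2) + (b1 * R1 + b2 * R2))
    have h2 := hq (a1 * P2 - a2 * P1 + 2 * (a2 * Q1 - a1 * Q2))
      (2 * (b1 * Q2 - b2 * Q1) + (b2 * R1 - b1 * R2))
    have h3 := hq (a1 * Q1 + a2 * Q2) (b1 * Q1 + b2 * Q2)
    have h4 := hq (a2 * Q1 - a1 * Q2) (b1 * Q2 - b2 * Q1)
    have h5 := mul_nonneg hB (sq_nonneg (a1 * P1 + a2 * P2 - (a1 * Q1 + a2 * Q2)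
      + (b1 * Q1 + b2 * Q2) - (b1 * R1 + b2 * R2)))
    have h6 := mul_nonneg hB (sq_nonneg (a1 * P2 - a2 * P1 - (a2 * Q1 - a1 * Q2)
      + (b1 * Q2 - b2 * Q1) - (b2 * R1 - b1 * R2)))
    have h7 := mul_nonneg hde (add_nonneg (sq_nonneg Q1) (sq_nonneg Q2))
    refine le_of_le_of_eq (add_nonneg (mul_nonneg (show (0 : ℝ) ≤ 4 / 3 by norm_num)
      (add_nonneg (add_nonneg (add_nonneg h1 h2) (mul_nonneg (show (0 : ℝ) ≤ 3 by norm_num)
      (add_nonneg h3 h4))) (mul_nonneg (show (0 : ℝ) ≤ 2 by norm_num) (add_nonneg h5 h6))))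
      (mul_nonneg (show (0 : ℝ) ≤ 8 by norm_num) h7)) ?_
    ring

theorem continuous_field {ι : Type} [Fintype ι] (R : ℝ) (k : ι → Fin 2 → ℤ) (φ : ι → ℝ)
    (M : ι → E) (F₀ : E) : Continuous fun x => F₀ + trig R k φ M x :=
  continuous_const.add (continuous_trig R k φ M)

theorem TQC.add {W₁ W₂ : E → ℝ} (h₁ : TQC W₁) (h₂ : TQC W₂) (c₁ : Continuous W₁)
    (c₂ : Continuous W₂) : TQC fun F => W₁ F + W₂ F := by
  intro R hR ι _ k φ a F₀
  have cF := continuous_field R k φ (fun i r c => a i r * (k i c : ℝ)) F₀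
  refine le_of_le_of_eq ?_
    (integral_add (integrableOn_Q R (c₁.comp cF)) (integrableOn_Q R (c₂.comp cF))).symm
  exact (add_mul _ _ _).trans_le (add_le_add (h₁ R hR ι k φ a F₀) (h₂ R hR ι k φ a F₀))

/-- A function that at each point is supported from below by a quasiconvex function is
quasiconvex. -/
theorem TQC.of_support {W : E → ℝ} (hW : Continuous W)
    (h : ∀ F₀, ∃ U : E → ℝ, TQC U ∧ Continuous U ∧ U F₀ = W F₀ ∧ ∀ F, U F ≤ W F) : TQC W := by
  intro R hR ι _ k φ a F₀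
  obtain ⟨U, hU, cU, e, hle⟩ := h F₀
  have cF := continuous_field R k φ (fun i r c => a i r * (k i c : ℝ)) F₀
  rw [← e]
  exact (hU R hR ι k φ a F₀).trans
    (integral_mono (integrableOn_Q R (cU.comp cF)) (integrableOn_Q R (hW.comp cF))
      fun x => hle _)

theorem tqc_iso (A B C d e f : ℝ) (hAB : 0 ≤ A + B) (hBC : 0 ≤ B + C) (hde : 0 ≤ d + e)
    (hq : ∀ p q : ℝ, 0 ≤ (3 * A + B) * p ^ 2 + 4 * B * p * q + (3 * C + B) * q ^ 2) :
    TQC (Wiso A B C d e f) := by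
  rcases le_total 0 B with hB | hB
  · exact (cert_iso A B C d e f hB hde hq).tqc
  · have h1 : TQC (Wiso (A + B) 0 (C + B) d e f) :=
      (cert_iso (A + B) 0 (C + B) d e f le_rfl hde fun p q => by
        have := mul_nonneg hAB (sq_nonneg p)
        have := mul_nonneg hBC (sq_nonneg q)
        nlinarith).tqc
    have h2 : TQC (Wiso (-B) B (-B) 0 0 0) := by
      refine TQC.of_support (continuous_Wiso _ _ _ _ _ _) fun F₀ => ?_
      set D : ℝ := sz F₀ F₀ - sw F₀ F₀ with hD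
      refine ⟨Wiso 0 0 0 (-2 * B * D) (2 * B * D) (B * D ^ 2),
        (cert_iso 0 0 0 _ _ _ le_rfl (by linarith) fun p q => by simp).tqc,
        continuous_Wiso _ _ _ _ _ _, ?_, fun F => ?_⟩
      · simp only [Wiso, hD]; ring
      · have := mul_nonneg (neg_nonneg.2 hB) (sq_nonneg (sz F F - sw F F - D))
        simp only [Wiso]
        nlinarith
    have h3 := h1.add h2 (continuous_Wiso _ _ _ _ _ _) (continuous_Wiso _ _ _ _ _ _)
    convert h3 using 2 with F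
    simp only [Wiso]; ring

end Pool.Agent.MP_515557_an.H11
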