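import Pool.Agent.MP_515557_an.H11.Iso

/-! Classification of isotropic polynomials of degree at most four and the main theorem. -/

set_option autoImplicit false

open MeasureTheory Set Real Filter Topology

namespace Pool.Agent.MP_515557_an.H11

abbrev Mat : Type := Matrix (Fin 2) (Fin 2) ℝ

/-- The sign average of `g` is an even quartic. -/
def Good (g : ℝ → ℝ → ℝ) : Prop :=
  ∃ A B C d e f : ℝ, ∀ ρ σ : ℝ, g ρ σ + g (-ρ) σ + g ρ (-σ) + g (-ρ) (-σ)
    = 4 * (A * ρ ^ 4 + 2 * B * (ρ ^ 2 * σ ^ 2) + C * σ ^ 4 + d * ρ ^ 2 + e * σ ^ 2 + f)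

theorem Good.add {g h : ℝ → ℝ → ℝ} (hg : Good g) (hh : Good h) :
    Good fun ρ σ => g ρ σ + h ρ σ := by
  obtain ⟨A, B, C, d, e, f, hg⟩ := hg
  obtain ⟨A', B', C', d', e', f', hh⟩ := hh
  exact ⟨A + A', B + B', C + C', d + d', e + e', f + f', fun ρ σ => by
    linear_combination hg ρ σ + hh ρ σ⟩

theorem Good.smul {g : ℝ → ℝ → ℝ} (hg : Good g) (c : ℝ) : Good fun ρ σ => c * g ρ σ := by
  obtain ⟨A, B, C, d, e, f, hg⟩ := hg
  exact ⟨c * A, c * B, c * C, c * d, c * e, c * f, fun ρ σ => by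
    linear_combination c * hg ρ σ⟩

theorem good_sum {ι : Type*} (s : Finset ι) (g : ι → ℝ → ℝ → ℝ) (h : ∀ i ∈ s, Good (g i)) :
    Good fun ρ σ => ∑ i ∈ s, g i ρ σ := by
  classical
  induction s using Finset.induction_on with
  | empty => exact ⟨0, 0, 0, 0, 0, 0, fun ρ σ => by simp⟩
  | insert a s ha ih =>
    simp_rw [Finset.sum_insert ha]
    exact (h a (Finset.mem_insert_self a s)).add
      (ih fun i hi => h i (Finset.mem_insert_of_mem hi))

theorem good_mono (a b : ℕ) (hab : a + b ≤ 4) :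
    Good fun ρ σ => ((ρ + σ) / 2) ^ a * ((ρ - σ) / 2) ^ b := by
  set g : ℝ → ℝ → ℝ := fun ρ σ => ((ρ + σ) / 2) ^ a * ((ρ - σ) / 2) ^ b with hg
  set h : ℝ → ℝ → ℝ := fun ρ σ => (g ρ σ + g (-ρ) σ + g ρ (-σ) + g (-ρ) (-σ)) / 4 with hh
  refine ⟨(h 2 0 - 4 * h 1 0 + 3 * h 0 0) / 12, (h 1 1 - h 1 0 - h 0 1 + h 0 0) / 2,
    (h 0 2 - 4 * h 0 1 + 3 * h 0 0) / 12, (16 * h 1 0 - h 2 0 - 15 * h 0 0) / 12,
    (16 * h 0 1 - h 0 2 - 15 * h 0 0) / 12, h 0 0, fun ρ σ => ?_⟩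
  have ha : a ≤ 4 := by omega
  have hb : b ≤ 4 := by omega
  simp only [hh, hg]
  interval_cases a <;> interval_cases b <;> first | omega | ring

/-- Diagonal matrices in conformal coordinates. -/
noncomputable def Dg (ρ σ : ℝ) : Mat := !![(ρ + σ) / 2, 0; 0, (ρ - σ) / 2]

theorem good_poly (p : MvPolynomial (Fin 2 × Fin 2) ℝ) (hp : p.totalDegree ≤ 4) :
    Good fun ρ σ => MvPolynomial.eval (fun ij : Fin 2 × Fin 2 => Dg ρ σ ij.1 ij.2) p := by
  simp_rw [MvPolynomial.eval_eq']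
  refine good_sum _ _ fun m hm => ?_
  have h1 := (MvPolynomial.le_totalDegree hm).trans hp
  rw [Finsupp.sum_fintype _ _ (fun _ => rfl), Fintype.sum_prod_type] at h1
  simp only [Fin.sum_univ_two] at h1
  have h2 := (good_mono (m (0, 0)) (m (1, 1)) (by omega)).smul
    (MvPolynomial.coeff m p * (0 ^ m (0, 1) * 0 ^ m (1, 0)))
  convert h2 using 3 with ρ σ
  rw [Fintype.prod_prod_type]
  simp only [Fin.prod_univ_two, Dg, Matrix.of_apply, Matrix.cons_val', Matrix.cons_val_zero,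
    Matrix.cons_val_one, Matrix.cons_val_fin_one]
  ring

theorem rot_mem (c s : ℝ) (h : c ^ 2 + s ^ 2 = 1) :
    (!![c, -s; s, c] : Mat) ∈ Matrix.specialOrthogonalGroup (Fin 2) ℝ := by
  rw [Matrix.mem_specialOrthogonalGroup_iff, Matrix.mem_orthogonalGroup_iff]
  constructor
  · ext i j
    fin_cases i <;> fin_cases j <;> simp [Matrix.mul_apply, Fin.sum_univ_two] <;> linarith
  · rw [Matrix.det_fin_two_of]; linarith

theorem polar (F : Mat) : ∃ (ρ σ c s c' s' : ℝ), c ^ 2 + s ^ 2 = 1 ∧ c' ^ 2 + s' ^ 2 = 1 ∧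
    F = !![c, -s; s, c] * Dg ρ σ * !![c', -s'; s', c'] ∧ sz F F = ρ ^ 2 ∧ sw F F = σ ^ 2 := by
  set Z : ℂ := ⟨z1 F, z2 F⟩ with hZ
  set U : ℂ := ⟨w1 F, w2 F⟩ with hU
  have h1 : ‖Z‖ * cos Z.arg = z1 F := Complex.norm_mul_cos_arg Z
  have h2 : ‖Z‖ * sin Z.arg = z2 F := Complex.norm_mul_sin_arg Z
  have h3 : ‖U‖ * cos U.arg = w1 F := Complex.norm_mul_cos_arg U
  have h4 : ‖U‖ * sin U.arg = w2 F := Complex.norm_mul_sin_arg U
  set a := (Z.arg + U.arg) / 2 with ha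
  set b := (Z.arg - U.arg) / 2 with hb
  have e1 : Z.arg = a + b := by rw [ha, hb]; ring
  have e2 : U.arg = a - b := by rw [ha, hb]; ring
  refine ⟨‖Z‖, ‖U‖, cos a, sin a, cos b, sin b, cos_sq_add_sin_sq a, cos_sq_add_sin_sq b,
    ?_, ?_, ?_⟩
  · rw [e1] at h1 h2
    rw [e2] at h3 h4
    rw [cos_add] at h1
    rw [sin_add] at h2
    rw [cos_sub] at h3
    rw [sin_sub] at h4
    simp only [z1, z2, w1, w2] at h1 h2 h3 h4
    ext i j
    fin_cases i <;> fin_cases j <;> simp [Matrix.mul_apply, Fin.sum_univ_two, Dg]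
    · linear_combination (-1 / 2) * h1 + (-1 / 2) * h3
    · linear_combination (1 / 2) * h2 + (-1 / 2) * h4
    · linear_combination (-1 / 2) * h2 + (-1 / 2) * h4
    · linear_combination (-1 / 2) * h1 + (1 / 2) * h3
  · simp only [sz, ← h1, ← h2]
    linear_combination ‖Z‖ ^ 2 * cos_sq_add_sin_sq Z.arg
  · simp only [sw, ← h3, ← h4]
    linear_combination ‖U‖ ^ 2 * cos_sq_add_sin_sq U.arg

theorem classify (p : MvPolynomial (Fin 2 × Fin 2) ℝ) (hp : p.totalDegree ≤ 4) (W : Mat → ℝ)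
    (hW : ∀ F, W F = MvPolynomial.eval (fun ij : Fin 2 × Fin 2 => F ij.1 ij.2) p)
    (hiso : ∀ R ∈ Matrix.specialOrthogonalGroup (Fin 2) ℝ,
      ∀ S ∈ Matrix.specialOrthogonalGroup (Fin 2) ℝ, ∀ F, W (R * F * S) = W F) :
    ∃ A B C d e f : ℝ, ∀ F : Mat, W F = Wiso A B C d e f F := by
  obtain ⟨A, B, C, d, e, f, hg⟩ := good_poly p hp
  refine ⟨A, B, C, d, e, f, fun F => ?_⟩
  obtain ⟨ρ, σ, c, s, c', s', h1, h2, hF, hS, hT⟩ := polar F
  have e0 : W F = W (Dg ρ σ) := by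
    conv_lhs => rw [hF]
    exact hiso _ (rot_mem c s h1) _ (rot_mem c' s' h2) _
  have e1 : W (Dg (-ρ) σ) = W (Dg ρ σ) := by
    rw [← hiso _ (rot_mem 0 1 (by norm_num)) _ (rot_mem 0 1 (by norm_num)) (Dg ρ σ)]
    congr 1
    ext i j
    fin_cases i <;> fin_cases j <;> simp [Matrix.mul_apply, Fin.sum_univ_two, Dg] <;> ring
  have e2 : W (Dg ρ (-σ)) = W (Dg ρ σ) := by
    rw [← hiso _ (rot_mem 0 1 (by norm_num)) _ (rot_mem 0 (-1) (by norm_num)) (Dg ρ σ)]
    congr 1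
    ext i j
    fin_cases i <;> fin_cases j <;> simp [Matrix.mul_apply, Fin.sum_univ_two, Dg] <;> ring
  have e3 : W (Dg (-ρ) (-σ)) = W (Dg ρ σ) := by
    rw [← hiso _ (rot_mem (-1) 0 (by norm_num)) _ (rot_mem 1 0 (by norm_num)) (Dg ρ σ)]
    congr 1
    ext i j
    fin_cases i <;> fin_cases j <;> simp [Matrix.mul_apply, Fin.sum_univ_two, Dg] <;> ring
  have := hg ρ σ
  simp only [← hW] at this
  rw [e1, e2, e3] at this
  rw [e0, Wiso, hS, hT]
  linear_combination (1 / 4) * this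

theorem rank_E11 (c : ℝ) (hc : c ≠ 0) : (!![c, 0; 0, 0] : Mat).rank = 1 := by
  have : (!![c, 0; 0, 0] : Mat) = Matrix.diagonal ![c, 0] := by
    ext i j
    fin_cases i <;> fin_cases j <;> simp
  rw [this, Matrix.rank_diagonal, Fintype.card_eq_one_iff]
  refine ⟨⟨0, by simpa using hc⟩, ?_⟩
  rintro ⟨i, hi⟩
  fin_cases i
  · rfl
  · simp at hi

/-- Rank-one convexity, as in the problem statement. -/
def RC (W : Mat → ℝ) : Prop :=
  ∀ F H : Mat, H.rank = 1 → ∀ t : ℝ, 0 ≤ t → t ≤ 1 →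
    W ((1 - t) • F + t • (F + H)) ≤ (1 - t) * W F + t * W (F + H)

theorem RC.mid {W : Mat → ℝ} (h : RC W) (a b c d ε : ℝ) (hε : ε ≠ 0) :
    2 * W !![a, b; c, d] ≤ W !![a - ε, b; c, d] + W !![a + ε, b; c, d] := by
  have := h !![a - ε, b; c, d] !![2 * ε, 0; 0, 0] (rank_E11 _ (by simpa using hε)) (1 / 2)
    (by norm_num) (by norm_num)
  have e1 : (!![a - ε, b; c, d] + !![2 * ε, 0; 0, 0] : Mat) = !![a + ε, b; c, d] := by
    ext i j
    fin_cases i <;> fin_cases j <;> simp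
    ring
  rw [e1] at this
  have e2 : ((1 - 1 / 2 : ℝ) • !![a - ε, b; c, d] + (1 / 2 : ℝ) • !![a + ε, b; c, d] : Mat)
      = !![a, b; c, d] := by
    ext i j
    fin_cases i <;> fin_cases j <;> simp <;> ring
  rw [e2] at this
  linarith

theorem nonneg_of_large {x y : ℝ} (h : ∀ l : ℝ, 0 ≤ x * l ^ 2 + y) : 0 ≤ x := by
  by_contra hx
  push Not at hx
  have h1 := h (√((|y| + 1) / (-x)))
  rw [Real.sq_sqrt (div_nonneg (by positivity) (by linarith))] at h1
  have e : x * ((|y| + 1) / (-x)) = -(|y| + 1) := by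
    have : x ≠ 0 := hx.ne
    field_simp
  rw [e] at h1
  linarith [le_abs_self y]

theorem nonneg_of_small {x y : ℝ} (h : ∀ l : ℝ, l ≠ 0 → 0 ≤ x + y * l ^ 2) : 0 ≤ x := by
  by_contra hx
  push Not at hx
  have hp : 0 < -x / (|y| + 1) := div_pos (by linarith) (by positivity)
  have h1 := h (√(-x / (|y| + 1))) (Real.sqrt_pos.2 hp).ne'
  rw [Real.sq_sqrt hp.le] at h1
  have h2 : y * (-x / (|y| + 1)) ≤ |y| * (-x / (|y| + 1)) :=
    mul_le_mul_of_nonneg_right (le_abs_self y) hp.le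
  have h3 : (|y| + 1) * (-x / (|y| + 1)) = -x := by field_simp
  nlinarith

theorem qc_iso (A B C d e f : ℝ) (h : RC (fun F : Mat => Wiso A B C d e f F)) :
    QC (Wiso A B C d e f) := by
  refine TQC.qc (tqc_iso A B C d e f ?_ ?_ ?_ fun p q => ?_) (continuous_Wiso _ _ _ _ _ _)
  · refine nonneg_of_large (y := (A + 2 * B + C + d + e) / 2) fun l => ?_
    have := h.mid 0 (-l / 2) (l / 2) 0 1 one_ne_zero
    simp only [Wiso, sz, sw, z1, z2, w1, w2, Matrix.of_apply, Matrix.cons_val',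
      Matrix.cons_val_zero, Matrix.cons_val_one, Matrix.cons_val_fin_one] at this
    nlinarith
  · refine nonneg_of_large (y := (A + 2 * B + C + d + e) / 2) fun l => ?_
    have := h.mid 0 (l / 2) (l / 2) 0 1 one_ne_zero
    simp only [Wiso, sz, sw, z1, z2, w1, w2, Matrix.of_apply, Matrix.cons_val',
      Matrix.cons_val_zero, Matrix.cons_val_one, Matrix.cons_val_fin_one] at this
    nlinarith
  · refine nonneg_of_small (y := A + 2 * B + C) fun l hl => ?_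
    have := h.mid 0 0 0 0 l hl
    simp only [Wiso, sz, sw, z1, z2, w1, w2, Matrix.of_apply, Matrix.cons_val',
      Matrix.cons_val_zero, Matrix.cons_val_one, Matrix.cons_val_fin_one] at this
    have hl2 : 0 < l ^ 2 := sq_pos_of_ne_zero hl
    by_contra hc
    push Not at hc
    have := mul_neg_of_pos_of_neg hl2 hc
    nlinarith
  · refine nonneg_of_large (y := (A + 2 * B + C + d + e) / 2) fun l => ?_
    have := h.mid (l * (p + q) / 2) 0 0 (l * (p - q) / 2) 1 one_ne_zero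
    simp only [Wiso, sz, sw, z1, z2, w1, w2, Matrix.of_apply, Matrix.cons_val',
      Matrix.cons_val_zero, Matrix.cons_val_one, Matrix.cons_val_fin_one] at this
    nlinarith

theorem iso_main (p : MvPolynomial (Fin 2 × Fin 2) ℝ) (hp : p.totalDegree ≤ 4) (W : Mat → ℝ)
    (hW : ∀ F, W F = MvPolynomial.eval (fun ij : Fin 2 × Fin 2 => F ij.1 ij.2) p)
    (hiso : ∀ R ∈ Matrix.specialOrthogonalGroup (Fin 2) ℝ,
      ∀ S ∈ Matrix.specialOrthogonalGroup (Fin 2) ℝ, ∀ F, W (R * F * S) = W F)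
    (hrc : RC W) : QC W := by
  obtain ⟨A, B, C, d, e, f, hc⟩ := classify p hp W hW hiso
  have : W = fun F : Mat => Wiso A B C d e f F := funext hc
  subst this
  exact qc_iso A B C d e f hrc

end Pool.Agent.MP_515557_an.H11
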