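import Pool.Agent.MP_515557_an.H11.Heat

/-! A positive trigonometric approximate identity on the periodic cell. -/

set_option autoImplicit false

open MeasureTheory Set Real Filter Topology

namespace Pool.Agent.MP_515557_an.H11

/-- Finite cosine sums with period `2 π R`. -/
def CosSum (R : ℝ) (f : V → ℝ) : Prop :=
  ∃ (ι : Type) (_ : Fintype ι) (k : ι → Fin 2 → ℤ) (b : ι → ℝ),
    ∀ v, f v = ∑ i, b i * cos (ph R (k i) v)

theorem ph_add_k (R : ℝ) (k l : Fin 2 → ℤ) (v : V) : ph R (k + l) v = ph R k v + ph R l v := by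
  simp only [ph, Pi.add_apply, Int.cast_add]; ring

theorem ph_sub_k (R : ℝ) (k l : Fin 2 → ℤ) (v : V) : ph R (k - l) v = ph R k v - ph R l v := by
  simp only [ph, Pi.sub_apply, Int.cast_sub]; ring

theorem ph_sub (R : ℝ) (k : Fin 2 → ℤ) (x y : V) : ph R k (x - y) = ph R k x - ph R k y := by
  simp only [ph, Pi.sub_apply]; ring

theorem CosSum.mul {R : ℝ} {f g : V → ℝ} (hf : CosSum R f) (hg : CosSum R g) :
    CosSum R fun v => f v * g v := by
  obtain ⟨ι, _, k, b, hf⟩ := hf
  obtain ⟨κ, _, l, d, hg⟩ := hg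
  refine ⟨(ι × κ) ⊕ (ι × κ), inferInstance,
    Sum.elim (fun p => k p.1 + l p.2) (fun p => k p.1 - l p.2),
    Sum.elim (fun p => b p.1 * d p.2 / 2) (fun p => b p.1 * d p.2 / 2), fun v => ?_⟩
  rw [Fintype.sum_sum_type]
  simp only [Sum.elim_inl, Sum.elim_inr, ← Finset.sum_add_distrib]
  rw [hf, hg, Finset.sum_mul_sum, Fintype.sum_prod_type]
  refine Finset.sum_congr rfl fun i _ => Finset.sum_congr rfl fun j _ => ?_
  rw [ph_add_k, ph_sub_k, cos_add, cos_sub]
  ring

theorem cosSum_one (R : ℝ) : CosSum R fun _ => 1 :=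
  ⟨Unit, inferInstance, fun _ => 0, fun _ => 1, fun v => by simp [ph]⟩

theorem CosSum.pow {R : ℝ} {f : V → ℝ} (hf : CosSum R f) (n : ℕ) : CosSum R fun v => f v ^ n := by
  induction n with
  | zero => simpa using cosSum_one R
  | succ n ih => simpa [pow_succ] using ih.mul hf

/-- The basic positive kernel. -/
noncomputable def ker (R : ℝ) (v : V) : ℝ := (1 + cos (v 0 / R)) * (1 + cos (v 1 / R))

theorem cosSum_ker (R : ℝ) : CosSum R (ker R) := by
  have h0 : CosSum R fun v => 1 + cos (v 0 / R) :=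
    ⟨Bool, inferInstance, fun s => if s then ![1, 0] else 0, fun _ => 1, fun v => by
      simp [ph, add_comm]⟩
  have h1 : CosSum R fun v => 1 + cos (v 1 / R) :=
    ⟨Bool, inferInstance, fun s => if s then ![0, 1] else 0, fun _ => 1, fun v => by
      simp [ph, add_comm]⟩
  exact h0.mul h1

theorem ker_nonneg (R : ℝ) (v : V) : 0 ≤ ker R v := by
  have h0 := neg_one_le_cos (v 0 / R)
  have h1 := neg_one_le_cos (v 1 / R)
  exact mul_nonneg (by linarith) (by linarith)

theorem ker_le (R : ℝ) (v : V) : ker R v ≤ 4 := by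
  have h0 := neg_one_le_cos (v 0 / R)
  have h1 := neg_one_le_cos (v 1 / R)
  have h2 := cos_le_one (v 0 / R)
  have h3 := cos_le_one (v 1 / R)
  unfold ker
  nlinarith

theorem continuous_ker (R : ℝ) : Continuous (ker R) := by
  unfold ker; fun_prop

theorem int_cos_zero (R : ℝ) (hR : 0 < R) (k : Fin 2 → ℤ) (hk : k ≠ 0) (φ : ℝ) :
    ∫ y in Q R, cos (ph R k y + φ) = 0 := by
  obtain ⟨j, hj⟩ : ∃ j, k j ≠ 0 := by
    by_contra hc
    push Not at hc
    exact hk (funext hc)
  have hj' : (k j : ℝ) ≠ 0 := by exact_mod_cast hj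
  have hc := continuous_ph R k
  refine int_deriv_zero R hR j (fun y => sin (ph R k y + φ) * (R / k j)) _ (by fun_prop)
    (fun x => ?_) (fun x => ?_)
  · simp_rw [ph_add]
    have h1 : HasDerivAt (fun s : ℝ => ph R k x + s * ((k j : ℝ) / R) + φ)
        ((k j : ℝ) / R) 0 := by
      simpa using (((hasDerivAt_id (0 : ℝ)).mul_const ((k j : ℝ) / R)).const_add
        (ph R k x)).add_const φ
    have h2 := (h1.sin).mul_const (R / k j)
    have e : cos (ph R k x + 0 * ((k j : ℝ) / R) + φ) * ((k j : ℝ) / R) * (R / k j)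
        = cos (ph R k x + φ) := by
      rw [zero_mul, add_zero]
      field_simp
    rw [e] at h2
    exact h2
  · rw [ph_add]
    have : ph R k x + 2 * π * R * ((k j : ℝ) / R) + φ
        = ph R k x + φ + (k j : ℝ) * (2 * π) := by
      field_simp; ring
    rw [this, sin_add_int_mul_two_pi]

theorem int_cos_shift (R : ℝ) (hR : 0 < R) (k : Fin 2 → ℤ) (x : V) :
    (∫ y in Q R, cos (ph R k (x - y)) = ∫ y in Q R, cos (ph R k y)) ∧
    (∫ y in Q R, cos (ph R k (y - x)) = ∫ y in Q R, cos (ph R k y)) := by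
  by_cases hk : k = 0
  · subst hk
    simp [ph]
  · have h0 := int_cos_zero R hR k hk 0
    have h1 := int_cos_zero R hR k hk (-(ph R k x))
    simp only [add_zero] at h0
    rw [h0]
    constructor
    · rw [← h1]
      congr 1
      ext y
      rw [ph_sub, ← cos_neg]
      congr 1
      ring
    · rw [← h1]
      congr 1
      ext y
      rw [ph_sub, sub_eq_add_neg]

theorem CosSum.shift {R : ℝ} (hR : 0 < R) {f : V → ℝ} (hf : CosSum R f) (x : V) :
    (∫ y in Q R, f (x - y) = ∫ y in Q R, f y) ∧ (∫ y in Q R, f (y - x) = ∫ y in Q R, f y) := by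
  obtain ⟨ι, _, k, b, hf⟩ := hf
  have hc := fun i => continuous_ph R (k i)
  simp_rw [hf]
  rw [integral_finsetSum, integral_finsetSum, integral_finsetSum]
  · simp_rw [integral_const_mul]
    exact ⟨Finset.sum_congr rfl fun i _ => by rw [(int_cos_shift R hR (k i) x).1],
      Finset.sum_congr rfl fun i _ => by rw [(int_cos_shift R hR (k i) x).2]⟩
  all_goals
    intro i _
    have := hc i
    exact integrableOn_Q R (by fun_prop)

/-- Total mass of the `n`-th power of the kernel. -/
noncomputable def mass (R : ℝ) (n : ℕ) : ℝ := ∫ y in Q R, ker R y ^ n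

theorem mass_nonneg (R : ℝ) (n : ℕ) : 0 ≤ mass R n :=
  integral_nonneg fun y => pow_nonneg (ker_nonneg R y) n

/-- The approximation operators. -/
noncomputable def app (R : ℝ) (n : ℕ) (g : V → E) (x : V) : E :=
  (mass R n)⁻¹ • ∫ y in Q R, ker R (x - y) ^ n • g y

theorem integrable_ker_smul (R : ℝ) (n : ℕ) {g : V → E} (hg : IntegrableOn g (Q R) volume)
    (x : V) : IntegrableOn (fun y => ker R (x - y) ^ n • g y) (Q R) volume := by
  have hc := continuous_ker R
  exact IntegrableOn.continuousOn_smul hg (by fun_prop) (isCompact_Q R)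

theorem app_sub (R : ℝ) (n : ℕ) {g h : V → E} (hg : IntegrableOn g (Q R) volume)
    (hh : IntegrableOn h (Q R) volume) (x : V) :
    app R n (fun y => g y - h y) x = app R n g x - app R n h x := by
  unfold app
  rw [← smul_sub, ← integral_sub (integrable_ker_smul R n hg x) (integrable_ker_smul R n hh x)]
  simp_rw [smul_sub]

theorem norm_app_le_int (R : ℝ) (n : ℕ) (g : V → E) (x : V) :
    ‖app R n g x‖ ≤ (mass R n)⁻¹ * ∫ y in Q R, ker R (x - y) ^ n * ‖g y‖ := by
  unfold app
  rw [norm_smul, Real.norm_of_nonneg (inv_nonneg.2 (mass_nonneg R n))]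
  refine mul_le_mul_of_nonneg_left ?_ (inv_nonneg.2 (mass_nonneg R n))
  refine (norm_integral_le_integral_norm _).trans (le_of_eq ?_)
  congr 1
  ext y
  rw [norm_smul, Real.norm_of_nonneg (pow_nonneg (ker_nonneg R _) n)]

theorem inv_mul_mul_le (m C : ℝ) (hC : 0 ≤ C) : m⁻¹ * (m * C) ≤ C := by
  by_cases h : m = 0
  · simp [h, hC]
  · rw [← mul_assoc, inv_mul_cancel₀ h, one_mul]

theorem norm_app_le (R : ℝ) (hR : 0 < R) (n : ℕ) {g : V → E} {C : ℝ} (hC : ∀ y, ‖g y‖ ≤ C)
    (x : V) : ‖app R n g x‖ ≤ C := by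
  have hC0 : 0 ≤ C := (norm_nonneg _).trans (hC 0)
  have hc := continuous_ker R
  refine (norm_app_le_int R n g x).trans ?_
  refine le_trans ?_ (inv_mul_mul_le (mass R n) C hC0)
  refine mul_le_mul_of_nonneg_left ?_ (inv_nonneg.2 (mass_nonneg R n))
  have e : mass R n * C = ∫ y in Q R, ker R (x - y) ^ n * C := by
    rw [integral_mul_const, (((cosSum_ker R).pow n).shift hR x).1, mass]
  rw [e]
  refine integral_mono_of_nonneg (Eventually.of_forall fun y =>
    mul_nonneg (pow_nonneg (ker_nonneg R _) n) (norm_nonneg _))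
    (integrableOn_Q R (by fun_prop)) (Eventually.of_forall fun y => ?_)
  exact mul_le_mul_of_nonneg_left (hC y) (pow_nonneg (ker_nonneg R _) n)

theorem app_eq_trig (R : ℝ) (n : ℕ) :
    ∃ (ι : Type) (_ : Fintype ι) (k : ι → Fin 2 → ℤ) (φ : ι → ℝ) (b : ι → ℝ),
      ∀ g : V → E, IntegrableOn g (Q R) volume →
        app R n g = trig R k φ (fun i => b i • ∫ y in Q R, cos (ph R (k i) y + φ i) • g y) := by
  obtain ⟨ι, _, k, b, hf⟩ := (cosSum_ker R).pow n
  refine ⟨ι ⊕ ι, inferInstance, Sum.elim k k, Sum.elim (fun _ => 0) (fun _ => π / 2),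
    Sum.elim (fun i => (mass R n)⁻¹ * b i) (fun i => (mass R n)⁻¹ * b i), fun g hg => ?_⟩
  have hc := fun i => continuous_ph R (k i)
  ext1 x
  unfold app trig
  rw [Fintype.sum_sum_type]
  simp only [Sum.elim_inl, Sum.elim_inr, ← Finset.sum_add_distrib]
  have hf' : ∀ v, ker R v ^ n = ∑ i, b i * cos (ph R (k i) v) := hf
  simp_rw [hf', Finset.sum_smul]
  rw [integral_finsetSum, Finset.smul_sum]
  · refine Finset.sum_congr rfl fun i _ => ?_
    have := hc i
    have i1 : IntegrableOn (fun y => cos (ph R (k i) y + 0) • g y) (Q R) volume :=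
      IntegrableOn.continuousOn_smul hg (by fun_prop) (isCompact_Q R)
    have i2 : IntegrableOn (fun y => cos (ph R (k i) y + π / 2) • g y) (Q R) volume :=
      IntegrableOn.continuousOn_smul hg (by fun_prop) (isCompact_Q R)
    simp only [← integral_smul]
    have j1 : IntegrableOn (fun y => cos (ph R (k i) x + 0) • ((mass R n)⁻¹ * b i) •
        cos (ph R (k i) y + 0) • g y) (Q R) volume :=
      (i1.smul ((mass R n)⁻¹ * b i)).smul (cos (ph R (k i) x + 0))
    have j2 : IntegrableOn (fun y => cos (ph R (k i) x + π / 2) • ((mass R n)⁻¹ * b i) •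
        cos (ph R (k i) y + π / 2) • g y) (Q R) volume :=
      (i2.smul ((mass R n)⁻¹ * b i)).smul (cos (ph R (k i) x + π / 2))
    rw [← integral_add j1 j2]
    congr 1
    ext1 y
    simp only [smul_smul, ← add_smul]
    congr 1
    rw [ph_sub, cos_sub, cos_add_pi_div_two, cos_add_pi_div_two, add_zero, add_zero]
    ring
  · intro i _
    have := hc i
    exact IntegrableOn.continuousOn_smul hg (by fun_prop) (isCompact_Q R)

theorem continuous_app (R : ℝ) (n : ℕ) {g : V → E} (hg : IntegrableOn g (Q R) volume) :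
    Continuous (app R n g) := by
  obtain ⟨ι, _, k, φ, b, h⟩ := app_eq_trig R n
  rw [h g hg]
  exact continuous_trig _ _ _ _

theorem int_norm_app_le (R : ℝ) (hR : 0 < R) (n : ℕ) {g : V → E}
    (hg : IntegrableOn g (Q R) volume) :
    ∫ x in Q R, ‖app R n g x‖ ≤ ∫ y in Q R, ‖g y‖ := by
  have hc := continuous_ker R
  have : IsFiniteMeasure (volume.restrict (Q R)) :=
    isFiniteMeasure_restrict.2 (volume_Q_lt_top R).ne
  have hi : Integrable (fun p : V × V => ker R (p.1 - p.2) ^ n * ‖g p.2‖)
      ((volume.restrict (Q R)).prod (volume.restrict (Q R))) := by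
    refine Integrable.bdd_mul (c := 4 ^ n) (hg.norm.comp_snd _) ?_ (Eventually.of_forall fun p => ?_)
    · exact Continuous.aestronglyMeasurable (by fun_prop)
    · rw [Real.norm_of_nonneg (pow_nonneg (ker_nonneg R _) n)]
      exact pow_le_pow_left₀ (ker_nonneg R _) (ker_le R _) n
  have h1 : ∫ x in Q R, ‖app R n g x‖ ≤
      ∫ x in Q R, (mass R n)⁻¹ * ∫ y in Q R, ker R (x - y) ^ n * ‖g y‖ :=
    integral_mono (integrableOn_Q R (continuous_app R n hg).norm)
      (hi.integral_prod_left.const_mul _) (fun x => norm_app_le_int R n g x)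
  refine h1.trans ?_
  rw [integral_const_mul, integral_integral_swap hi]
  have e : ∀ y, ∫ x in Q R, ker R (x - y) ^ n * ‖g y‖ = mass R n * ‖g y‖ := by
    intro y
    rw [integral_mul_const, (((cosSum_ker R).pow n).shift hR y).2, mass]
  simp_rw [e]
  rw [integral_const_mul]
  exact inv_mul_mul_le _ _ (integral_nonneg fun y => norm_nonneg _)

theorem tendsto_app (R : ℝ) (hR : 0 < R) {h : V → E} (hh : Continuous h) (x : V)
    (hx : x ∈ Set.pi univ fun _ : Fin 2 => Ioo (-(π * R)) (π * R)) :
    Tendsto (fun n => app R n h x) atTop (𝓝 (h x)) := by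
  have hc := continuous_ker R
  have hxQ : x ∈ interior (Q R) := by
    refine mem_interior.2 ⟨_, ?_, isOpen_set_pi finite_univ fun _ _ => isOpen_Ioo, hx⟩
    intro y hy
    exact mem_Q.2 fun i => ⟨(hy i trivial).1.le, (hy i trivial).2.le⟩
  have := tendsto_setIntegral_pow_smul_of_unique_maximum_of_isCompact_of_continuousOn
    (μ := volume) (isCompact_Q R) (c := fun y => ker R (x - y)) (x₀ := x) (g := h)
    (by fun_prop) ?_ (fun y _ => ker_nonneg R _) (by simp [ker]) (subset_closure hxQ)
    hh.continuousOn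
  · refine this.congr fun n => ?_
    rw [(((cosSum_ker R).pow n).shift hR x).1]
    rfl
  · intro y hy hne
    have hb : ∀ i, -(2 * π) < (x - y) i / R ∧ (x - y) i / R < 2 * π := by
      intro i
      have h1 := hx i trivial
      have h2 := mem_Q.1 hy i
      rw [lt_div_iff₀ hR, div_lt_iff₀ hR, Pi.sub_apply]
      constructor <;> linarith [h1.1, h1.2, h2.1, h2.2]
    have hlt : ∀ i, x i ≠ y i → cos ((x - y) i / R) < 1 := by
      intro i hi
      refine lt_of_le_of_ne (cos_le_one _) fun hc1 => ?_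
      rw [cos_eq_one_iff_of_lt_of_lt (hb i).1 (hb i).2, div_eq_zero_iff] at hc1
      rcases hc1 with h1 | h1
      · exact hi (sub_eq_zero.1 h1)
      · exact hR.ne' h1
    have h0 := neg_one_le_cos ((x - y) 0 / R)
    have h1 := neg_one_le_cos ((x - y) 1 / R)
    have h2 := cos_le_one ((x - y) 0 / R)
    have h3 := cos_le_one ((x - y) 1 / R)
    have e : ker R (x - x) = 4 := by simp [ker]; norm_num
    simp only [e]
    unfold ker
    by_cases q0 : x 0 = y 0
    · have q1 : x 1 ≠ y 1 := fun q1 => hne (by ext i; fin_cases i <;> simp [q0, q1])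
      have := hlt 1 q1
      nlinarith
    · have := hlt 0 q0
      nlinarith

theorem exists_app_close (R : ℝ) (hR : 0 < R) {g : V → E} (hg : IntegrableOn g (Q R) volume)
    {η : ℝ} (hη : 0 < η) : ∃ n, ∫ x in Q R, ‖app R n g x - g x‖ ≤ η := by
  have : IsFiniteMeasure (volume.restrict (Q R)) :=
    isFiniteMeasure_restrict.2 (volume_Q_lt_top R).ne
  obtain ⟨h, hgh, hh⟩ := Integrable.exists_boundedContinuous_integral_sub_le hg
    (show 0 < η / 3 by positivity)
  have lim : Tendsto (fun n => ∫ x in Q R, ‖app R n h x - h x‖) atTop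
      (𝓝 (∫ _x in Q R, (0 : ℝ))) := by
    refine tendsto_integral_of_dominated_convergence (fun _ => ‖h‖ + ‖h‖) (fun n => ?_)
      (integrable_const _) (fun n => Eventually.of_forall fun x => ?_) ?_
    · exact ((continuous_app R n hh).sub h.continuous).norm.aestronglyMeasurable
    · rw [norm_norm]
      exact (norm_sub_le _ _).trans (add_le_add
        (norm_app_le R hR n (fun y => h.norm_coe_le_norm y) x) (h.norm_coe_le_norm x))
    · have hae : (Set.pi univ fun _ : Fin 2 => Ioo (-(π * R)) (π * R)) =ᵐ[volume] Q R :=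
        Measure.univ_pi_Ioo_ae_eq_Icc
      rw [← Measure.restrict_congr_set hae]
      refine (ae_restrict_iff' (MeasurableSet.univ_pi fun _ => measurableSet_Ioo)).2
        (Eventually.of_forall fun x hx => ?_)
      have := ((tendsto_app R hR h.continuous x hx).sub_const (h x)).norm
      simpa using this
  rw [integral_zero] at lim
  obtain ⟨n, hn⟩ := (lim.eventually (gt_mem_nhds (show 0 < η / 3 by positivity))).exists
  refine ⟨n, ?_⟩
  have i1 := integrableOn_Q R (continuous_app R n (hg.sub hh)).norm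
  have i2 : IntegrableOn (fun x => ‖app R n h x - h x‖) (Q R) volume :=
    integrableOn_Q R ((continuous_app R n hh).sub h.continuous).norm
  have i3 : IntegrableOn (fun x => ‖g x - h x‖) (Q R) volume := (hg.sub hh).norm
  have i12 : IntegrableOn (fun x => ‖app R n (g - h) x‖ + ‖app R n h x - h x‖) (Q R) volume :=
    i1.add i2
  have h1 := int_norm_app_le R hR n (hg.sub hh)
  have h2 : ∫ x in Q R, ‖app R n g x - g x‖ ≤
      ∫ x in Q R, (‖app R n (g - h) x‖ + ‖app R n h x - h x‖ + ‖g x - h x‖) := by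
    refine integral_mono ((integrableOn_Q R (continuous_app R n hg)).sub hg).norm
      ((i1.add i2).add i3) fun x => ?_
    have e : app R n g x - g x = app R n (g - h) x + (app R n h x - h x) - (g x - h x) := by
      rw [show (g - h : V → E) = fun y => g y - h y from rfl, app_sub R n hg hh]
      abel
    simp only [e]
    exact (norm_sub_le _ _).trans (add_le_add (norm_add_le _ _) le_rfl)
  rw [integral_add i12 i3, integral_add i1 i2] at h2
  simp only [Pi.sub_apply] at h1 h2
  linarith

end Pool.Agent.MP_515557_an.H11
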