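import Pool.Agent.MP_515557_an.H11.MDefs

/-! Basic estimates: short pairs, compactness of the conflict set, the key inequality, rotations. -/

set_option autoImplicit false

open MeasureTheory Set Metric Filter Topology
open scoped ENNReal

namespace Pool.Agent.MP_515557_an.H11.Mono

theorem abs_ip_le (a b : ℂ) : |ip a b| ≤ ‖a‖ * ‖b‖ := by
  have h : ip a b = (a * (starRingEnd ℂ) b).re := by simp [ip]
  rw [h]
  refine (Complex.abs_re_le_norm _).trans ?_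
  rw [norm_mul, Complex.norm_conj]

theorem ip_self (a : ℂ) : ip a a = ‖a‖ ^ 2 := by
  rw [Complex.sq_norm, Complex.normSq_apply]; rfl

theorem FF_comm (v : ℂ → ℂ) (x y : ℂ) : FF v x y = FF v y x := by
  simp only [FF, ip, Complex.sub_re, Complex.sub_im]; ring

theorem FF_self (v : ℂ → ℂ) (x : ℂ) : FF v x x = 0 := by simp [FF, ip]

theorem continuous_FF {v : ℂ → ℂ} (hv : Continuous v) :
    Continuous fun g : ℂ × ℂ => FF v g.1 g.2 := by
  unfold FF ip
  fun_prop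

variable {v : ℂ → ℂ} {l : ℂ → ℝ} {M K σ : ℝ} {C : Set ℂ}

theorem Data.continuous (h : Data v l M K) : Continuous v := h.diff.continuous

theorem Data.norm_sub_le (h : Data v l M K) (x y : ℂ) : ‖v y - v x‖ ≤ M * ‖y - x‖ :=
  convex_univ.norm_image_sub_le_of_norm_fderiv_le (𝕜 := ℝ) (fun z _ => h.diff z)
    (fun z _ => h.bd z) (mem_univ x) (mem_univ y)

theorem Data.taylor (h : Data v l M K) (x y : ℂ) :
    ‖v y - v x - fderiv ℝ v x (y - x)‖ ≤ K * ‖y - x‖ * ‖y - x‖ := by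
  refine (convex_closedBall x ‖y - x‖).norm_image_sub_le_of_norm_fderiv_le' (𝕜 := ℝ)
    (fun z _ => h.diff z) (fun z hz => ?_) (mem_closedBall_self (norm_nonneg _))
    (by simp [dist_eq_norm])
  refine (h.lip z x).trans (mul_le_mul_of_nonneg_left ?_ h.Kpos.le)
  simpa [dist_eq_norm] using hz

theorem Data.le_M (h : Data v l M K) (x : ℂ) : l x ≤ M := by
  have h1 := h.le x 1
  have h2 := abs_ip_le (fderiv ℝ v x 1) 1
  have h3 := (fderiv ℝ v x).le_opNorm 1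
  have h4 := h.bd x
  simp only [norm_one, one_pow, mul_one] at h1 h2 h3
  linarith [le_abs_self (ip (fderiv ℝ v x 1) 1)]

theorem Data.le_re (h : Data v l M K) (x : ℂ) : l x ≤ (fderiv ℝ v x 1).re := by
  simpa [ip] using h.le x 1

/-- Pairs with one point in `C` and small distance are strongly monotone. -/
theorem short (h : Data v l M K) (ha : Adm v l σ C) {x y : ℂ} (hx : x ∈ C)
    (hxy : 2 * K * ‖x - y‖ ≤ σ) : σ / 2 * ‖x - y‖ ^ 2 ≤ FF v x y := by
  have h1 := h.taylor x y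
  have h2 := h.le x (y - x)
  have h3 := abs_ip_le (v y - v x - fderiv ℝ v x (y - x)) (y - x)
  have h4 := ha.marg x hx
  have e : FF v x y = ip (v y - v x - fderiv ℝ v x (y - x)) (y - x)
      + ip (fderiv ℝ v x (y - x)) (y - x) := by
    simp only [FF, ip, Complex.sub_re, Complex.sub_im]; ring
  rw [norm_sub_rev x y] at hxy ⊢
  set n := ‖y - x‖
  have hn : 0 ≤ n := norm_nonneg _
  have h5 : |ip (v y - v x - fderiv ℝ v x (y - x)) (y - x)| ≤ K * n * n * n :=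
    h3.trans (mul_le_mul_of_nonneg_right h1 hn)
  have h6 := neg_abs_le (ip (v y - v x - fderiv ℝ v x (y - x)) (y - x))
  have h7 : K * n * n * n ≤ σ / 2 * n ^ 2 := by nlinarith [mul_nonneg hn hn]
  have h8 : σ * n ^ 2 ≤ l x * n ^ 2 := mul_le_mul_of_nonneg_right h4 (sq_nonneg n)
  rw [e]; linarith

/-- Conflict pairs are long. -/
theorem conf_long (h : Data v l M K) (ha : Adm v l σ C) {S : Set ℂ} {δ : ℝ} (hδ : δ < σ / 2)
    {g : ℂ × ℂ} (hg : g ∈ conf v C S δ) : σ < 2 * K * ‖g.1 - g.2‖ := by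
  by_contra hc
  have h1 := short h ha hg.1 (not_lt.1 hc)
  have h2 := hg.2.2.2.2
  have h3 : 0 < ‖g.1 - g.2‖ ^ 2 := pow_pos (norm_pos_iff.2 (sub_ne_zero.2 hg.2.2.1)) 2
  nlinarith

theorem conf_mono {S : Set ℂ} {δ δ' : ℝ} (hδ : δ ≤ δ') : conf v C S δ ⊆ conf v C S δ' :=
  fun _ hg => ⟨hg.1, hg.2.1, hg.2.2.1, hg.2.2.2.1,
    hg.2.2.2.2.trans (mul_le_mul_of_nonneg_right hδ (sq_nonneg _))⟩

theorem conf_mono_set {S S' : Set ℂ} {δ : ℝ} (hS : S ⊆ S') : conf v C S δ ⊆ conf v C S' δ :=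
  fun _ hg => ⟨hg.1, hg.2.1, hg.2.2.1, hS hg.2.2.2.1, hg.2.2.2.2⟩

theorem tight_eq (ha : Adm v l σ C) {S : Set ℂ} {g : ℂ × ℂ} (hg : g ∈ conf v C S 0) :
    FF v g.1 g.2 = 0 :=
  le_antisymm (by simpa using hg.2.2.2.2) (ha.mono _ hg.1 _ hg.2.1)

theorem isCompact_conf (h : Data v l M K) (ha : Adm v l σ C) {S : Set ℂ} (hS : IsClosed S)
    {δ : ℝ} (hδ : δ < σ / 2) : IsCompact (conf v C S δ) := by
  have e : conf v C S δ = (C ×ˢ C) ∩ ({g : ℂ × ℂ | σ ≤ 2 * K * ‖g.1 - g.2‖} ∩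
      ({g : ℂ × ℂ | g.2 - g.1 ∈ S} ∩ {g | FF v g.1 g.2 ≤ δ * ‖g.1 - g.2‖ ^ 2})) := by
    ext g
    constructor
    · intro hg
      exact ⟨⟨hg.1, hg.2.1⟩, (conf_long h ha hδ hg).le, hg.2.2.2.1, hg.2.2.2.2⟩
    · rintro ⟨⟨h1, h2⟩, h3, h4, h5⟩
      refine ⟨h1, h2, fun hc => ?_, h4, h5⟩
      have : σ ≤ 2 * K * ‖g.1 - g.2‖ := h3
      rw [hc] at this
      simp at this
      linarith [ha.pos]
  rw [e]
  refine (ha.cpt.prod ha.cpt).inter_right (IsClosed.inter ?_ (IsClosed.inter ?_ ?_))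
  · exact isClosed_le continuous_const (by fun_prop)
  · exact hS.preimage (by fun_prop)
  · exact isClosed_le (continuous_FF h.continuous) (by fun_prop)

theorem norm_le_of_slope {w : ℂ} {ε : ℝ} (hε : ε ≤ 1) (hw : |w.im| ≤ ε * w.re)
    (h0 : 0 ≤ w.re) : ‖w‖ ≤ 2 * w.re := by
  have := Complex.norm_le_abs_re_add_abs_im w
  rw [abs_of_nonneg h0] at this
  nlinarith

theorem re_pos_of_slope {w : ℂ} {ε : ℝ} (hε : 0 < ε) (hw : |w.im| ≤ ε * w.re) (h0 : w ≠ 0) :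
    0 < w.re := by
  have h1 : 0 ≤ w.re := by
    by_contra hc
    have := mul_neg_of_pos_of_neg hε (not_le.1 hc)
    linarith [abs_nonneg w.im]
  refine lt_of_le_of_ne h1 fun hc => h0 ?_
  rw [← hc, mul_zero] at hw
  exact Complex.ext hc.symm (abs_nonpos_iff.1 hw)

theorem key_alg {σ M ε θ κ κ' s a D b P Q A B : ℝ} (hσ : 0 < σ) (hM : 0 < M) (hε0 : 0 ≤ ε)
    (hθ0 : 0 ≤ θ) (hε : 8 * ε * M ≤ κ * σ) (hθ : 8 * θ * M ≤ κ' * σ) (hs0 : 0 ≤ s)
    (hs : |a| ≤ θ * s) (hD : |b| ≤ ε * D) (hD0 : 0 < D) (hsD : s ≤ κ * D) (hsD' : s ≤ D)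
    (hP : σ / 2 * s ≤ P) (hQ : |Q| ≤ 2 * M * s) (hB : |B| ≤ 2 * M * D)
    (f0 : 0 ≤ D * A + b * B) :
    D * P * (1 - 2 * κ - κ') ≤ (D * P + b * Q) + (s * (A - P) + a * (B - Q)) := by
  have hP0 : 0 ≤ P := le_trans (by positivity) hP
  have g1 : |b * Q| ≤ ε * D * (2 * M * s) := by
    rw [abs_mul]; exact mul_le_mul hD hQ (abs_nonneg _) (by positivity)
  have g2 : |b * B| ≤ ε * D * (2 * M * D) := by
    rw [abs_mul]; exact mul_le_mul hD hB (abs_nonneg _) (by positivity)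
  have g3 : -(2 * ε * M * D) ≤ A := by
    have : D * (-(2 * ε * M * D)) ≤ D * A := by
      linarith [le_abs_self (b * B)]
    exact le_of_mul_le_mul_left this hD0
  have g4 : |a * (B - Q)| ≤ θ * s * (4 * M * D) := by
    rw [abs_mul]
    refine mul_le_mul hs ((abs_sub _ _).trans ?_) (abs_nonneg _) (by positivity)
    linarith [mul_le_mul_of_nonneg_left hsD' hM.le]
  have k0 : σ * s ≤ 2 * P := by linarith
  have hκ0 : 0 ≤ κ * σ := le_trans (by positivity) hε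
  have hκ0' : 0 ≤ κ' * σ := le_trans (by positivity) hθ
  have hκp : 0 ≤ κ := nonneg_of_mul_nonneg_left hκ0 hσ
  have hκp' : 0 ≤ κ' := nonneg_of_mul_nonneg_left hκ0' hσ
  have k1 : 4 * ε * M * s ≤ κ * P := by
    linarith [mul_le_mul_of_nonneg_right hε hs0, mul_le_mul_of_nonneg_left k0 hκp]
  have k2 : 4 * θ * M * s ≤ κ' * P := by
    linarith [mul_le_mul_of_nonneg_right hθ hs0, mul_le_mul_of_nonneg_left k0 hκp']
  have k3 : s * P ≤ κ * D * P := mul_le_mul_of_nonneg_right hsD hP0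
  have k4 := mul_le_mul_of_nonneg_left k1 hD0.le
  have k5 := mul_le_mul_of_nonneg_left k2 hD0.le
  have k6 := mul_le_mul_of_nonneg_left g3 hs0
  linarith [neg_abs_le (b * Q), neg_abs_le (a * (B - Q))]

/-- Increment of the real part in a cone in front of a point of `C`. -/
theorem incr (h : Data v l M K) (ha : Adm v l σ C) {θ : ℝ} (hθ0 : 0 ≤ θ) (hθ1 : θ ≤ 1)
    (hθ : 8 * θ * M ≤ σ) {x x' : ℂ} (hx : x ∈ C) (hs0 : 0 ≤ (x' - x).re)
    (hs : |(x' - x).im| ≤ θ * (x' - x).re) (hsK : 16 * K * (x' - x).re ≤ σ) :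
    σ / 2 * (x' - x).re ≤ (v x' - v x).re := by
  have hσ := ha.pos
  have hM := h.Mpos
  have hK := h.Kpos
  have hn : ‖x' - x‖ ≤ 2 * (x' - x).re := norm_le_of_slope hθ1 hs hs0
  have h1 := h.taylor x x'
  have h2 := (Complex.abs_re_le_norm (v x' - v x - fderiv ℝ v x (x' - x))).trans h1
  have h3 : fderiv ℝ v x (x' - x)
      = (x' - x).re • fderiv ℝ v x 1 + (x' - x).im • fderiv ℝ v x Complex.I := by
    rw [← map_smul, ← map_smul, ← map_add]
    congr 1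
    apply Complex.ext <;> simp
  have h4 : (fderiv ℝ v x (x' - x)).re
      = (x' - x).re * (fderiv ℝ v x 1).re + (x' - x).im * (fderiv ℝ v x Complex.I).re := by
    rw [h3]; simp
  have h5 := (ha.marg x hx).trans (h.le_re x)
  have h6 : |(fderiv ℝ v x Complex.I).re| ≤ M := by
    refine (Complex.abs_re_le_norm _).trans (((fderiv ℝ v x).le_opNorm _).trans ?_)
    simpa using h.bd x
  have h10 := neg_abs_le (v x' - v x - fderiv ℝ v x (x' - x)).re
  rw [Complex.sub_re (v x' - v x), h4] at h10 h2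
  generalize (x' - x).re = s at *
  generalize (x' - x).im = a at *
  have hn0 : 0 ≤ ‖x' - x‖ := norm_nonneg _
  generalize ‖x' - x‖ = n at *
  have h7 : |a * (fderiv ℝ v x Complex.I).re| ≤ θ * s * M := by
    rw [abs_mul]
    exact mul_le_mul hs h6 (abs_nonneg _) (mul_nonneg hθ0 hs0)
  have h8 : K * n * n ≤ σ / 4 * s := by
    have : n * n ≤ (2 * s) * (2 * s) := mul_le_mul hn hn hn0 (by linarith)
    linarith [mul_le_mul_of_nonneg_left this hK.le, mul_le_mul_of_nonneg_right hsK hs0]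
  have h9 : θ * s * M ≤ σ / 8 * s := by
    linarith [mul_le_mul_of_nonneg_right hθ hs0]
  have h11 := neg_abs_le (a * (fderiv ℝ v x Complex.I).re)
  linarith [mul_le_mul_of_nonneg_left h5 hs0, mul_nonneg hσ.le hs0]

/-- The key inequality. -/
theorem key (h : Data v l M K) (ha : Adm v l σ C) {ε θ κ κ' : ℝ} (hε0 : 0 ≤ ε) (hε1 : ε ≤ 1)
    (hθ0 : 0 ≤ θ) (hθ1 : θ ≤ 1) (hκ1 : κ ≤ 1) (hκ' : κ' ≤ 1) (hε : 8 * ε * M ≤ κ * σ)
    (hθ : 8 * θ * M ≤ κ' * σ) {x x' y : ℂ} (hx : x ∈ C) (hx' : x' ∈ C) (hy : y ∈ C)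
    (hs0 : 0 ≤ (x' - x).re) (hs : |(x' - x).im| ≤ θ * (x' - x).re)
    (hsK : 16 * K * (x' - x).re ≤ σ) (hD : |(y - x).im| ≤ ε * (y - x).re)
    (hD0 : 0 < (y - x).re) (hsD : (x' - x).re ≤ κ * (y - x).re) :
    σ / 2 * (x' - x).re ≤ (v x' - v x).re ∧
      (y - x).re * (v x' - v x).re * (1 - 2 * κ - κ') ≤ FF v x y := by
  have hσ := ha.pos
  have hM := h.Mpos
  have hn : ‖x' - x‖ ≤ 2 * (x' - x).re := norm_le_of_slope hθ1 hs hs0
  have hnD : ‖y - x‖ ≤ 2 * (y - x).re := norm_le_of_slope hε1 hD hD0.le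
  have hsD' : (x' - x).re ≤ (y - x).re :=
    hsD.trans (by linarith [mul_le_mul_of_nonneg_right hκ1 hD0.le])
  have hP := incr h ha hθ0 hθ1 (hθ.trans (by linarith [mul_le_mul_of_nonneg_right hκ' hσ.le]))
    hx hs0 hs hsK
  refine ⟨hP, ?_⟩
  have hQ : |(v x' - v x).im| ≤ 2 * M * (x' - x).re := by
    refine (Complex.abs_im_le_norm _).trans ((h.norm_sub_le x x').trans ?_)
    linarith [mul_le_mul_of_nonneg_left hn hM.le]
  have hB : |(v y - v x).im| ≤ 2 * M * (y - x).re := by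
    refine (Complex.abs_im_le_norm _).trans ((h.norm_sub_le x y).trans ?_)
    linarith [mul_le_mul_of_nonneg_left hnD hM.le]
  have e1 : FF v x y = (y - x).re * (v y - v x).re + (y - x).im * (v y - v x).im := by
    simp only [FF, ip, Complex.sub_re, Complex.sub_im]; ring
  have e2 : FF v x y - FF v x' y = ((y - x).re * (v x' - v x).re + (y - x).im * (v x' - v x).im)
      + ((x' - x).re * ((v y - v x).re - (v x' - v x).re)
        + (x' - x).im * ((v y - v x).im - (v x' - v x).im)) := by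
    simp only [FF, ip, Complex.sub_re, Complex.sub_im]
    ring
  have f0 := ha.mono x hx y hy
  have f1 := ha.mono x' hx' y hy
  have := key_alg hσ hM hε0 hθ0 hε hθ hs0 hs hD hD0 hsD hsD' hP hQ hB (e1 ▸ f0)
  linarith

/-- Forward gap: no other point of `C` in a small cone in front of the tail of a tight pair. -/
theorem gap (h : Data v l M K) (ha : Adm v l σ C) {ε θ κ : ℝ} {S : Set ℂ} (hε0 : 0 < ε)
    (hε1 : ε ≤ 1) (hθ0 : 0 ≤ θ) (hθ1 : θ ≤ 1) (hκ1 : κ ≤ 1 / 4) (hε : 8 * ε * M ≤ κ * σ)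
    (hθ : 32 * θ * M ≤ σ) (hS : Sect ε S) {g : ℂ × ℂ} (hg : g ∈ conf v C S 0) {x' : ℂ}
    (hx' : x' ∈ C) (hs0 : 0 ≤ (x' - g.1).re) (hs : |(x' - g.1).im| ≤ θ * (x' - g.1).re)
    (hsK : 16 * K * (x' - g.1).re ≤ κ * σ) : x' = g.1 := by
  have hσ := ha.pos
  have hK := h.Kpos
  have hsl := hS.slope _ hg.2.2.2.1
  have hD0 := re_pos_of_slope hε0 hsl (sub_ne_zero.2 hg.2.2.1.symm)
  have hκ0 : 0 ≤ κ * σ := le_trans (by have := h.Mpos; positivity) hε
  have hκp : 0 ≤ κ := nonneg_of_mul_nonneg_left hκ0 hσ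
  have hlong := conf_long h ha (by linarith : (0 : ℝ) < σ / 2) hg
  have hn := norm_le_of_slope hε1 hsl hD0.le
  rw [norm_sub_rev] at hlong
  have hsD : (x' - g.1).re ≤ κ * (g.2 - g.1).re := by
    have h1 : σ ≤ 4 * K * (g.2 - g.1).re := by nlinarith
    have h2 : K * (x' - g.1).re ≤ K * (κ * (g.2 - g.1).re) := by
      nlinarith [mul_le_mul_of_nonneg_left h1 hκp, mul_nonneg hK.le hs0]
    exact le_of_mul_le_mul_left h2 hK
  obtain ⟨h1, h2⟩ := key h ha (κ := κ) (κ' := 1 / 4) hε0.le hε1 hθ0 hθ1 (by linarith)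
    (by norm_num) hε (by linarith) hg.1 hx' hg.2.1 hs0 hs (by nlinarith) hsl hD0 hsD
  rw [tight_eq ha hg] at h2
  have h3 : (v x' - v g.1).re ≤ 0 := by
    by_contra hc
    have := mul_pos (mul_pos hD0 (not_le.1 hc)) (by linarith : (0 : ℝ) < 1 - 2 * κ - 1 / 4)
    linarith
  have h4 : (x' - g.1).re = 0 := le_antisymm (by nlinarith) hs0
  rw [h4, mul_zero] at hs
  exact sub_eq_zero.1 (Complex.ext h4 (abs_nonpos_iff.1 hs))

/-- The field in rotated coordinates. -/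
noncomputable def rot (m : ℂ) (v : ℂ → ℂ) : ℂ → ℂ := fun z => (starRingEnd ℂ) m * v (m * z)

theorem ip_rot (m a b : ℂ) :
    ip ((starRingEnd ℂ) m * a) b = ip a (m * b) := by
  simp only [ip, Complex.mul_re, Complex.mul_im, Complex.conj_re, Complex.conj_im]; ring

theorem FF_rot {m : ℂ} (hm : ‖m‖ = 1) (v : ℂ → ℂ) (x y : ℂ) :
    FF (rot m v) x y = FF v (m * x) (m * y) := by
  simp only [FF, rot]
  rw [← mul_sub, ip_rot, mul_sub]

theorem norm_rot {m : ℂ} (hm : ‖m‖ = 1) (x y : ℂ) : ‖m * x - m * y‖ = ‖x - y‖ := by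
  rw [← mul_sub, norm_mul, hm, one_mul]

theorem hasFDerivAt_rot (h : Data v l M K) (m x : ℂ) :
    HasFDerivAt (rot m v) ((ContinuousLinearMap.mul ℝ ℂ ((starRingEnd ℂ) m)).comp
      ((fderiv ℝ v (m * x)).comp (ContinuousLinearMap.mul ℝ ℂ m))) x := by
  have h1 : HasFDerivAt (fun z : ℂ => m * z) (ContinuousLinearMap.mul ℝ ℂ m) x :=
    (ContinuousLinearMap.mul ℝ ℂ m).hasFDerivAt
  have h2 := (h.diff (m * x)).hasFDerivAt.comp x h1
  exact (ContinuousLinearMap.mul ℝ ℂ ((starRingEnd ℂ) m)).hasFDerivAt.comp x h2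

theorem Data.rot (h : Data v l M K) {m : ℂ} (hm : ‖m‖ = 1) :
    Data (rot m v) (fun z => l (m * z)) M K := by
  have hb : ∀ T : ℂ →L[ℝ] ℂ, ‖(ContinuousLinearMap.mul ℝ ℂ ((starRingEnd ℂ) m)).comp
      (T.comp (ContinuousLinearMap.mul ℝ ℂ m))‖ ≤ ‖T‖ := by
    intro T
    refine ContinuousLinearMap.opNorm_le_bound _ (norm_nonneg _) fun z => ?_
    have := T.le_opNorm (m * z)
    simpa [hm] using this
  refine ⟨h.Mpos, h.Kpos, fun x => (hasFDerivAt_rot h m x).differentiableAt, fun x => ?_,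
    fun x y => ?_, h.cont.comp (by fun_prop), fun x w => ?_⟩
  · rw [(hasFDerivAt_rot h m x).fderiv]
    exact (hb _).trans (h.bd _)
  · rw [(hasFDerivAt_rot h m x).fderiv, (hasFDerivAt_rot h m y).fderiv,
      ← ContinuousLinearMap.comp_sub, ← ContinuousLinearMap.sub_comp]
    refine (hb _).trans ((h.lip _ _).trans ?_)
    rw [norm_rot hm]
  · rw [(hasFDerivAt_rot h m x).fderiv]
    have := h.le (m * x) (m * w)
    rw [norm_mul, hm, one_mul, ← ip_rot] at this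
    simpa using this

theorem Adm.rot (ha : Adm v l σ C) {m : ℂ} (hm : ‖m‖ = 1) :
    Adm (rot m v) (fun z => l (m * z)) σ ((fun z => m * z) ⁻¹' C) := by
  have hm0 : m ≠ 0 := by rintro rfl; simp at hm
  refine ⟨ha.pos, ?_, fun x hx y hy => ?_, fun x hx => ha.marg _ hx⟩
  · exact (Homeomorph.mulLeft₀ m hm0).isCompact_preimage.2 ha.cpt
  · rw [FF_rot hm]; exact ha.mono _ hx _ hy

theorem mem_conf_rot {m : ℂ} (hm : ‖m‖ = 1) (S : Set ℂ) (δ : ℝ) (g : ℂ × ℂ) :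
    g ∈ conf (rot m v) ((fun z => m * z) ⁻¹' C) ((fun z => m * z) ⁻¹' S) δ
      ↔ (m * g.1, m * g.2) ∈ conf v C S δ := by
  have hm0 : m ≠ 0 := by rintro rfl; simp at hm
  simp only [conf, mem_ofPred_eq, mem_preimage, FF_rot hm, norm_rot hm, mul_sub, ne_eq,
    mul_right_inj' hm0]

theorem mem_conf_swap (S : Set ℂ) (δ : ℝ) (g : ℂ × ℂ) :
    g ∈ conf v C S δ ↔ (g.2, g.1) ∈ conf v C ((fun z => -z) ⁻¹' S) δ := by
  simp only [conf, mem_ofPred_eq, mem_preimage, neg_sub, FF_comm v g.2 g.1, norm_sub_rev g.2 g.1]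
  constructor
  · rintro ⟨a, b, c, d, e⟩; exact ⟨b, a, c.symm, d, e⟩
  · rintro ⟨a, b, c, d, e⟩; exact ⟨b, a, c.symm, d, e⟩

theorem measurePreserving_rot {m : ℂ} (hm : ‖m‖ = 1) :
    MeasurePreserving (fun z : ℂ => m * z) volume volume := by
  have := (rotation (⟨m, by simpa [Submonoid.unitSphere] using hm⟩ : Circle)).measurePreserving
  exact this

end Pool.Agent.MP_515557_an.H11.Mono
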