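import Pool.Agent.MP_515557_an.H11.MMat

/-! The functions of Burkholder and the inequality of Iwaniec. -/

set_option autoImplicit false

open MeasureTheory Set Metric Filter Topology

namespace Pool.Agent.MP_515557_an.H11.Mono

theorem hasDerivAt_burk {p c d y x : ℝ} (hx : 0 < x) :
    HasDerivAt (fun x : ℝ => c * x ^ p + y * (d * x ^ (p - 1)))
      (c * (p * x ^ (p - 1)) + y * (d * ((p - 1) * x ^ (p - 1 - 1)))) x :=
  ((Real.hasDerivAt_rpow_const (Or.inl hx.ne')).const_mul c).add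
    (((Real.hasDerivAt_rpow_const (Or.inl hx.ne')).const_mul d).const_mul y)

theorem convexOn_burk {p c d : ℝ} (hp : 1 < p) (h : |d * (p - 2)| ≤ c * p) (y : ℝ) :
    ConvexOn ℝ (Ici |y|) fun x : ℝ => c * x ^ p + y * (d * x ^ (p - 1)) := by
  refine convexOn_of_hasDerivWithinAt2_nonneg (convex_Ici _)
    (f' := fun x => c * p * x ^ (p - 1) + y * (d * (p - 1) * x ^ (p - 1 - 1)))
    (f'' := fun x => c * p * ((p - 1) * x ^ (p - 1 - 1))
      + y * (d * (p - 1) * ((p - 1 - 1) * x ^ (p - 1 - 1 - 1)))) ?_ ?_ ?_ ?_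
  · have h1 := Real.continuous_rpow_const (q := p) (by linarith)
    have h2 := Real.continuous_rpow_const (q := p - 1) (by linarith)
    exact ((continuous_const.mul h1).add
      (continuous_const.mul (continuous_const.mul h2))).continuousOn
  · intro x hx
    rw [interior_Ici] at hx
    have hx0 : 0 < x := (abs_nonneg y).trans_lt hx
    refine ((hasDerivAt_burk (p := p) (c := c) (d := d) (y := y) hx0).congr_deriv
      ?_).hasDerivWithinAt
    ring
  · intro x hx
    rw [interior_Ici] at hx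
    have hx0 : 0 < x := (abs_nonneg y).trans_lt hx
    exact (hasDerivAt_burk (p := p - 1) (c := c * p) (d := d * (p - 1)) (y := y)
      hx0).hasDerivWithinAt
  · intro x hx
    rw [interior_Ici] at hx
    have hx1 : |y| < x := hx
    have hx0 : 0 < x := (abs_nonneg y).trans_lt hx
    have e : x ^ (p - 1 - 1) = x ^ (p - 1 - 1 - 1) * x := by
      rw [← Real.rpow_add_one hx0.ne']; congr 1; ring
    have h1 : 0 < x ^ (p - 1 - 1 - 1) := Real.rpow_pos_of_pos hx0 _
    have h2 : |y * (d * (p - 2))| ≤ x * (c * p) := by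
      rw [abs_mul]
      exact mul_le_mul hx1.le h (abs_nonneg _) hx0.le
    have h3 : 0 ≤ x * (c * p) + y * (d * (p - 2)) := by linarith [neg_abs_le (y * (d * (p - 2)))]
    have h4 := mul_nonneg (mul_nonneg (by linarith : (0 : ℝ) ≤ p - 1) h1.le) h3
    rw [e]
    linarith

theorem g2_burk (hB : SBMS) {p c d : ℝ} (hp : 1 < p) (h : |d * (p - 2)| ≤ c * p) :
    G2 fun a b => c * (a + b) ^ p + (a - b) * (d * (a + b) ^ (p - 1)) := by
  refine g2_class hB (A := fun x => c * x ^ p) (B := fun x => d * x ^ (p - 1))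
    (convexOn_burk hp h) fun t x s h0 hx hs => ?_
  have hc : 0 ≤ c := nonneg_of_mul_nonneg_left ((abs_nonneg _).trans h) (by linarith)
  rcases h0.lt_or_eq with h1 | rfl
  · rcases hx.lt_or_eq with h2 | rfl
    · have es : |s * t| = t := by rcases hs with rfl | rfl <;> simp [abs_of_nonneg h0]
      have h3 := (convexOn_burk hp h (s * t)).le_slope_of_hasDerivAt (x := t) (y := x)
        (by simp [es]) (by simp [es, hx]) h2 (hasDerivAt_burk h1)
      rw [slope_def_field, le_div_iff₀ (by linarith)] at h3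
      have e : t ^ (p - 1) = t ^ (p - 1 - 1) * t := by
        rw [← Real.rpow_add_one h1.ne']; congr 1; ring
      have h4 : 0 ≤ c * p + s * (d * (p - 2)) := by
        rw [abs_le] at h
        rcases hs with rfl | rfl <;> linarith
      have h5 : 0 < t ^ (p - 1 - 1) := Real.rpow_pos_of_pos h1 _
      have h6 := mul_nonneg (mul_nonneg (mul_pos h5 h1).le h4) (sub_pos.2 h2).le
      rw [e] at h3 ⊢
      linarith
    · simp
  · have h1 : (0 : ℝ) ^ p = 0 := Real.zero_rpow (by linarith)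
    have h2 : (0 : ℝ) ^ (p - 1) = 0 := Real.zero_rpow (by linarith)
    simp only [h1, h2, mul_zero, zero_mul, add_zero]
    positivity

/-- The function of Burkholder is quasiconvex. -/
theorem g2_burkholder (hB : SBMS) {p : ℝ} (hp : 1 < p) :
    G2 fun a b => ((max p (p / (p - 1)) - 1) * a - b) * (a + b) ^ (p - 1) := by
  set P := max p (p / (p - 1)) with hP
  have hp1 : 0 < p - 1 := by linarith
  have h : |P / 2 * (p - 2)| ≤ (P - 2) / 2 * p := by
    rcases le_total 2 p with h2 | h2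
    · have : P = p := max_eq_left (by rw [div_le_iff₀ hp1]; nlinarith)
      rw [this, abs_of_nonneg (by positivity)]
      linarith
    · have : P = p / (p - 1) := max_eq_right (by rw [le_div_iff₀ hp1]; nlinarith)
      rw [this, abs_of_nonpos (mul_nonpos_of_nonneg_of_nonpos (by positivity) (by linarith))]
      apply le_of_eq
      field_simp
      ring
  refine (g2_burk hB hp h).congr fun T => ?_
  have e : (‖cz T‖ + ‖cw T‖) ^ p = (‖cz T‖ + ‖cw T‖) ^ (p - 1) * (‖cz T‖ + ‖cw T‖) := by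
    rw [← Real.rpow_add_one' (by positivity) (by linarith)]; congr 1; ring
  beta_reduce
  rw [e]
  ring

/-- The one variable function behind the inequality of Burkholder. -/
noncomputable def J (p c t : ℝ) : ℝ := t ^ p - c ^ p - p * (t - c) * (c + (t - c) / p) ^ (p - 1)

theorem hasDerivAt_J {p c t : ℝ} (hp : 1 < p) (hc : 0 < c) (ht : 0 < t) :
    HasDerivAt (J p c) (p * t * (t ^ (p - 1 - 1) - (c + (t - c) / p) ^ (p - 1 - 1))) t := by
  have hm : 0 < c + (t - c) / p := by
    have : c + (t - c) / p = (c * (p - 1) + t) / p := by field_simp; ring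
    rw [this]
    have : 0 < p - 1 := by linarith
    positivity
  have h1 : HasDerivAt (fun t : ℝ => c + (t - c) / p) (1 / p) t :=
    (((hasDerivAt_id t).sub_const c).div_const p).const_add c
  have h2 := h1.rpow_const (p := p - 1) (Or.inl hm.ne')
  have h3 : HasDerivAt (fun t : ℝ => p * (t - c)) (p * 1) t :=
    ((hasDerivAt_id t).sub_const c).const_mul p
  have h4 := ((Real.hasDerivAt_rpow_const (x := t) (p := p) (Or.inl ht.ne')).sub_const
    (c ^ p)).sub (h3.mul h2)
  refine HasDerivAt.congr_deriv h4 ?_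
  have e1 : t ^ (p - 1) = t ^ (p - 1 - 1) * t := by
    rw [← Real.rpow_add_one ht.ne']; congr 1; ring
  have e2 : (c + (t - c) / p) ^ (p - 1)
      = (c + (t - c) / p) ^ (p - 1 - 1) * (c + (t - c) / p) := by
    rw [← Real.rpow_add_one hm.ne']; congr 1; ring
  rw [e1, e2]
  have : p ≠ 0 := by linarith
  field_simp
  ring

theorem continuous_J {p : ℝ} (hp : 1 < p) : Continuous fun q : ℝ × ℝ => J p q.1 q.2 := by
  have h1 := Real.continuous_rpow_const (q := p) (by linarith)
  have h2 := Real.continuous_rpow_const (q := p - 1) (by linarith)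
  unfold J
  exact ((h1.comp continuous_snd).sub (h1.comp continuous_fst)).sub
    (Continuous.mul (by fun_prop) (h2.comp (by fun_prop)))

theorem J_sign {p s : ℝ} (hp : 1 < p) (hs : (s = 1 ∧ 2 ≤ p) ∨ (s = -1 ∧ p ≤ 2)) {c t : ℝ}
    (hc : 0 ≤ c) (ht : 0 ≤ t) : 0 ≤ s * J p c t := by
  have main : ∀ c t : ℝ, 0 < c → 0 < t → 0 ≤ s * J p c t := by
    intro c t hc ht
    have hd : ∀ u, 0 < u → HasDerivAt (fun u => s * J p c u)
        (s * (p * u * (u ^ (p - 1 - 1) - (c + (u - c) / p) ^ (p - 1 - 1)))) u :=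
      fun u hu => (hasDerivAt_J hp hc hu).const_mul s
    have mono : ∀ u m : ℝ, 0 < u → u ≤ m → 0 ≤ s * (m ^ (p - 1 - 1) - u ^ (p - 1 - 1)) := by
      intro u m hu hum
      rcases hs with ⟨rfl, h2⟩ | ⟨rfl, h2⟩
      · have := Real.rpow_le_rpow hu.le hum (by linarith : (0 : ℝ) ≤ p - 1 - 1)
        linarith
      · have := Real.rpow_le_rpow_of_nonpos hu hum (by linarith : p - 1 - 1 ≤ 0)
        linarith
    have j0 : s * J p c c = 0 := by simp [J]
    have hp0 : 0 < p := by linarith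
    rcases lt_trichotomy c t with h | rfl | h
    · obtain ⟨u, hu, e⟩ := exists_hasDerivAt_eq_slope (fun u => s * J p c u) _ h
        (fun u hu => (hd u (hc.trans_le hu.1)).continuousAt.continuousWithinAt)
        (fun u hu => hd u (hc.trans hu.1))
      have h1 : 0 ≤ (u - c) / p := div_nonneg (by linarith [hu.1]) hp0.le
      have h2 : (u - c) / p ≤ u - c := div_le_self (by linarith [hu.1]) hp.le
      have h3 := mono (c + (u - c) / p) u (by linarith) (by linarith)
      have h4 := mul_nonneg (mul_pos hp0 (hc.trans hu.1)).le h3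
      rw [j0, sub_zero, eq_div_iff (by linarith)] at e
      rw [← e]
      exact mul_nonneg (by linarith) (by linarith)
    · exact j0.ge
    · obtain ⟨u, hu, e⟩ := exists_hasDerivAt_eq_slope (fun u => s * J p c u) _ h
        (fun u hu => (hd u (ht.trans_le hu.1)).continuousAt.continuousWithinAt)
        (fun u hu => hd u (ht.trans hu.1))
      have h2 : (c - u) / p ≤ c - u := div_le_self (by linarith [hu.2]) hp.le
      have e2 : (u - c) / p = -((c - u) / p) := by ring
      have h3 := mono u (c + (u - c) / p) (ht.trans hu.1) (by linarith)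
      have h4 := mul_nonneg (mul_pos hp0 (ht.trans hu.1)).le h3
      rw [j0, zero_sub, eq_div_iff (by linarith)] at e
      have h5 := mul_nonneg h4 (by linarith : (0 : ℝ) ≤ c - t)
      linarith
  have hcl : IsClosed {q : ℝ × ℝ | 0 ≤ s * J p q.1 q.2} :=
    isClosed_le continuous_const (continuous_const.mul (continuous_J hp))
  have hsub : Ioi (0 : ℝ) ×ˢ Ioi (0 : ℝ) ⊆ {q : ℝ × ℝ | 0 ≤ s * J p q.1 q.2} :=
    fun q hq => main q.1 q.2 hq.1 hq.2
  have := closure_minimal hsub hcl
  rw [closure_prod_eq, closure_Ioi] at this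
  exact this (show (c, t) ∈ Ici (0 : ℝ) ×ˢ Ici (0 : ℝ) from ⟨hc, ht⟩)

/-- The inequality of Burkholder. -/
theorem burk_le {p : ℝ} (hp : 1 < p) : ∃ γ : ℝ, 0 ≤ γ ∧ ∀ a b : ℝ, 0 ≤ a → 0 ≤ b →
    γ * (((max p (p / (p - 1)) - 1) * a - b) * (a + b) ^ (p - 1))
      ≤ (max p (p / (p - 1)) - 1) ^ p * a ^ p - b ^ p := by
  have hp1 : 0 < p - 1 := by linarith
  have hp0 : 0 < p := by linarith
  rcases le_total 2 p with h2 | h2
  · have : max p (p / (p - 1)) = p := max_eq_left (by rw [div_le_iff₀ hp1]; nlinarith)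
    rw [this]
    refine ⟨p * ((p - 1) / p) ^ (p - 1), by positivity, fun a b ha hb => ?_⟩
    have h := J_sign hp (Or.inl ⟨rfl, h2⟩) hb (mul_nonneg hp1.le ha)
    have e : b + ((p - 1) * a - b) / p = (p - 1) / p * (a + b) := by field_simp; ring
    rw [J, e, Real.mul_rpow hp1.le ha, Real.mul_rpow (by positivity) (by positivity)] at h
    linarith
  · have : max p (p / (p - 1)) = p / (p - 1) := max_eq_right (by rw [le_div_iff₀ hp1]; nlinarith)
    rw [this]
    have hK : 0 ≤ p / (p - 1) - 1 := by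
      rw [sub_nonneg, le_div_iff₀ hp1]; linarith
    refine ⟨p * (1 / p) ^ (p - 1), by positivity, fun a b ha hb => ?_⟩
    have h := J_sign hp (Or.inr ⟨rfl, h2⟩) (mul_nonneg hK ha) hb
    have e : (p / (p - 1) - 1) * a + (b - (p / (p - 1) - 1) * a) / p = 1 / p * (a + b) := by
      field_simp; ring
    rw [J, e, Real.mul_rpow hK ha, Real.mul_rpow (by positivity) (by positivity)] at h
    linarith

theorem integrableOn_comp {W : Matrix (Fin 2) (Fin 2) ℝ → ℝ} (hW : Continuous W)
    {Ω : Set (Fin 2 → ℝ)} (hb : Bornology.IsBounded Ω) {ϑ : (Fin 2 → ℝ) → (Fin 2 → ℝ)}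
    {K : NNReal} (hK : LipschitzWith K ϑ) :
    IntegrableOn (fun x => W (LinearMap.toMatrix'
      ((fderiv ℝ ϑ x : (Fin 2 → ℝ) →L[ℝ] (Fin 2 → ℝ)) : (Fin 2 → ℝ) →ₗ[ℝ] (Fin 2 → ℝ)))) Ω := by
  set V : ((Fin 2 → ℝ) →L[ℝ] (Fin 2 → ℝ)) → ℝ := fun T =>
    W (LinearMap.toMatrix' (T : (Fin 2 → ℝ) →ₗ[ℝ] (Fin 2 → ℝ))) with hV
  have hVc : Continuous V := by
    refine hW.comp (continuous_matrix fun i j => ?_)
    simp only [LinearMap.toMatrix'_apply, ContinuousLinearMap.coe_coe]
    fun_prop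
  obtain ⟨C, hC⟩ := (isCompact_closedBall (0 : (Fin 2 → ℝ) →L[ℝ] (Fin 2 → ℝ))
    K).exists_bound_of_continuousOn hVc.continuousOn
  refine Measure.integrableOn_of_bounded (M := C) hb.measure_lt_top.ne
    (hVc.measurable.comp (measurable_fderiv ℝ ϑ)).aestronglyMeasurable
    (Eventually.of_forall fun x => hC _ ?_)
  simpa using norm_fderiv_le_of_lipschitz ℝ (x₀ := x) hK

theorem continuous_toCLM : Continuous toCLM := by
  unfold toCLM
  fun_prop

/-- The inequality conjectured by Iwaniec. -/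
theorem iwaniec (hB : SBMS) (hM : SMoll) {p : ℝ} (hp : 1 < p) {Ω : Set (Fin 2 → ℝ)}
    (hΩ : IsOpen Ω) (hb : Bornology.IsBounded Ω) {ϑ : (Fin 2 → ℝ) → (Fin 2 → ℝ)}
    (hL : ∃ K, LipschitzWith K ϑ) (h0 : ∀ x, x ∉ Ω → ϑ x = 0)
    (D : (Fin 2 → ℝ) → Matrix (Fin 2) (Fin 2) ℝ) (hD : ∀ x, D x = LinearMap.toMatrix'
      ((fderiv ℝ ϑ x : (Fin 2 → ℝ) →L[ℝ] (Fin 2 → ℝ)) : (Fin 2 → ℝ) →ₗ[ℝ] (Fin 2 → ℝ))) :
    ∫ x in Ω, ‖cz (toCLM (D x))‖ ^ p
      ≤ (max p (p / (p - 1)) - 1) ^ p * ∫ x in Ω, ‖cw (toCLM (D x))‖ ^ p := by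
  obtain ⟨γ, hγ, hle⟩ := burk_le hp
  have h := (g2_burkholder hB hp).swap
  have h1 := hM _ h.1 h.2 0 Ω hΩ hb ϑ hL h0
  obtain ⟨K, hK⟩ := hL
  have e0 : toCLM 0 = 0 := by simp [toCLM]
  have z0 : cz 0 = 0 := by simp [cz]
  have w0 : cw 0 = 0 := by simp [cw]
  simp only [e0, z0, w0, norm_zero, mul_zero, sub_zero, zero_mul, zero_add] at h1
  have hr := Real.continuous_rpow_const (q := p) (by linarith)
  have i1 := integrableOn_comp (W := fun F => ‖cz (toCLM F)‖ ^ p)
    (hr.comp (continuous_cz.comp continuous_toCLM).norm) hb hK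
  have i2 := integrableOn_comp (W := fun F => ‖cw (toCLM F)‖ ^ p)
    (hr.comp (continuous_cw.comp continuous_toCLM).norm) hb hK
  have i3 := integrableOn_comp (h.1.comp continuous_toCLM) hb hK
  have h2 := integral_mono (i3.const_mul γ) ((i2.const_mul ((max p (p / (p - 1)) - 1) ^ p)).sub i1)
    fun x => hle _ _ (norm_nonneg _) (norm_nonneg _)
  simp only [Pi.sub_apply, Function.comp_apply] at h2
  rw [integral_sub (i2.const_mul _) i1, integral_const_mul, integral_const_mul] at h2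
  have h3 := mul_nonneg hγ h1
  simp only [hD]
  linarith

end Pool.Agent.MP_515557_an.H11.Mono
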