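import Pool.Agent.MP_515557_an.H11.MDefs

/-! Superpositions of the function of Sverak. -/

set_option autoImplicit false

open MeasureTheory Set Metric Filter Topology

namespace Pool.Agent.MP_515557_an.H11.Mono

/-- Continuous and quasiconvex for smooth test maps. -/
def GQ (W : (ℂ →L[ℝ] ℂ) → ℝ) : Prop := Continuous W ∧ SQC W

theorem integrable_test {W : (ℂ →L[ℝ] ℂ) → ℝ} (hW : Continuous W) (A : ℂ →L[ℝ] ℂ) {u : ℂ → ℂ}
    (hu : ContDiff ℝ 2 u) (hc : HasCompactSupport u) :
    Integrable fun x => W (A + fderiv ℝ u x) - W A := by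
  have h1 : Continuous (fderiv ℝ u) := hu.continuous_fderiv (by norm_num)
  refine Continuous.integrable_of_hasCompactSupport (by fun_prop) ?_
  exact (hc.fderiv ℝ).comp_left (g := fun T => W (A + T) - W A) (by simp)

theorem GQ.const (c : ℝ) : GQ fun _ => c :=
  ⟨continuous_const, fun _ _ _ _ => by simp⟩

theorem GQ.add {W W' : (ℂ →L[ℝ] ℂ) → ℝ} (h : GQ W) (h' : GQ W') : GQ fun A => W A + W' A := by
  refine ⟨h.1.add h'.1, fun A u hu hc => ?_⟩
  have e : (fun x => W (A + fderiv ℝ u x) + W' (A + fderiv ℝ u x) - (W A + W' A))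
      = fun x => (W (A + fderiv ℝ u x) - W A) + (W' (A + fderiv ℝ u x) - W' A) := by
    ext x; ring
  rw [e, integral_add (integrable_test h.1 A hu hc) (integrable_test h'.1 A hu hc)]
  exact add_nonneg (h.2 A u hu hc) (h'.2 A u hu hc)

theorem GQ.smul {W : (ℂ →L[ℝ] ℂ) → ℝ} (h : GQ W) {c : ℝ} (hc0 : 0 ≤ c) :
    GQ fun A => c * W A := by
  refine ⟨continuous_const.mul h.1, fun A u hu hc => ?_⟩
  simp_rw [← mul_sub]
  rw [integral_const_mul]
  exact mul_nonneg hc0 (h.2 A u hu hc)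

theorem GQ.sum {ι : Type*} (s : Finset ι) {W : ι → (ℂ →L[ℝ] ℂ) → ℝ} (h : ∀ i ∈ s, GQ (W i)) :
    GQ fun A => ∑ i ∈ s, W i A := by
  classical
  induction s using Finset.induction_on with
  | empty => simpa using GQ.const 0
  | insert i s hi ih =>
    simp_rw [Finset.sum_insert hi]
    exact (h i (Finset.mem_insert_self _ _)).add
      (ih fun j hj => h j (Finset.mem_insert_of_mem hj))

theorem GQ.congr {W W' : (ℂ →L[ℝ] ℂ) → ℝ} (h : GQ W) (e : ∀ A, W A = W' A) : GQ W' :=
  (funext e : W = W') ▸ h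

theorem GQ.scale {W : (ℂ →L[ℝ] ℂ) → ℝ} (h : GQ W) (c : ℝ) : GQ fun A => W (c • A) := by
  refine ⟨h.1.comp (continuous_const_smul c), fun A u hu hc => ?_⟩
  have h1 := h.2 (c • A) (fun x => c • u x) (hu.const_smul c)
    (hc.comp_left (g := fun z : ℂ => c • z) (by simp))
  have e : ∀ x, fderiv ℝ (fun x => c • u x) x = c • fderiv ℝ u x := fun x =>
    fderiv_fun_const_smul (hu.differentiable (by norm_num) x) c
  simpa only [e, smul_add] using h1

theorem GQ.refl {W : (ℂ →L[ℝ] ℂ) → ℝ} (h : GQ W) :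
    GQ fun A => W ((Complex.conjCLE : ℂ →L[ℝ] ℂ).comp A) := by
  refine ⟨h.1.comp (by fun_prop), fun A u hu hc => ?_⟩
  have h1 := h.2 ((Complex.conjCLE : ℂ →L[ℝ] ℂ).comp A) (fun x => Complex.conjCLE (u x))
    (Complex.conjCLE.contDiff.comp hu)
    (hc.comp_left (g := fun z : ℂ => Complex.conjCLE z) (by simp))
  have e : ∀ x, fderiv ℝ (fun x => Complex.conjCLE (u x)) x
      = (Complex.conjCLE : ℂ →L[ℝ] ℂ).comp (fderiv ℝ u x) := fun x =>
    Complex.conjCLE.comp_fderiv
  simpa only [e, ContinuousLinearMap.comp_add] using h1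

theorem GQ.limit {W : (ℂ →L[ℝ] ℂ) → ℝ}
    (h : ∀ R ε : ℝ, 0 < ε → ∃ W', GQ W' ∧ ∀ A, ‖A‖ ≤ R → |W' A - W A| ≤ ε) : GQ W := by
  have hW : Continuous W := by
    refine continuous_iff_continuousAt.2 fun A => Metric.continuousAt_iff'.2 fun ε hε => ?_
    obtain ⟨W', h1, h2⟩ := h (‖A‖ + 1) (ε / 4) (by positivity)
    have h3 := Metric.continuousAt_iff'.1 (h1.1.continuousAt (x := A)) (ε / 4) (by positivity)
    filter_upwards [h3, Metric.ball_mem_nhds A one_pos] with B hB hB1
    have h4 := h2 A (by linarith)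
    have h5 := h2 B (by
      have := norm_sub_norm_le B A
      rw [mem_ball, dist_eq_norm] at hB1
      linarith)
    rw [Real.dist_eq] at hB ⊢
    rw [abs_le] at h4 h5
    rw [abs_lt] at hB ⊢
    constructor <;> linarith
  refine ⟨hW, fun A u hu hc => ?_⟩
  have h1 : Continuous (fderiv ℝ u) := hu.continuous_fderiv (by norm_num)
  obtain ⟨R, hR⟩ := h1.bounded_above_of_compact_support (hc.fderiv ℝ)
  set S := tsupport (fderiv ℝ u) with hS
  have hSc : IsCompact S := hc.fderiv ℝ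
  refine le_of_forall_pos_le_add fun ε hε => ?_
  set m := volume.real S with hm
  have hm0 : 0 ≤ m := measureReal_nonneg
  obtain ⟨W', h2, h3⟩ := h (‖A‖ + R) (ε / (2 * (m + 1))) (by positivity)
  have h4 := h2.2 A u hu hc
  have hR0 : 0 ≤ R := (norm_nonneg _).trans (hR 0)
  have h5 : ∫ x, (W' (A + fderiv ℝ u x) - W' A)
      ≤ ∫ x, ((W (A + fderiv ℝ u x) - W A) + S.indicator (fun _ => ε / (m + 1)) x) := by
    refine integral_mono (integrable_test h2.1 A hu hc) ((integrable_test hW A hu hc).add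
      ((integrable_indicator_iff hSc.measurableSet).2
        (integrableOn_const hSc.measure_lt_top.ne))) fun x => ?_
    by_cases hx : x ∈ S
    · have h6 := h3 A (by linarith)
      have h7 := h3 (A + fderiv ℝ u x) ((norm_add_le _ _).trans (by linarith [hR x]))
      rw [abs_le] at h6 h7
      have e : ε / (m + 1) = 2 * (ε / (2 * (m + 1))) := by field_simp
      simp only [indicator_of_mem hx]
      linarith
    · simp [indicator_of_notMem hx, image_eq_zero_of_notMem_tsupport hx]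
  rw [integral_add (integrable_test hW A hu hc) ((integrable_indicator_iff hSc.measurableSet).2
    (integrableOn_const hSc.measure_lt_top.ne)), integral_indicator hSc.measurableSet,
    setIntegral_const, smul_eq_mul, ← hm] at h5
  have h6 : m * (ε / (m + 1)) ≤ ε := by
    rw [← mul_div_assoc, div_le_iff₀ (by positivity)]
    nlinarith
  linarith

theorem continuous_cz : Continuous cz := by unfold cz; fun_prop

theorem continuous_cw : Continuous cw := by unfold cw; fun_prop

theorem cz_smul (c : ℝ) (A : ℂ →L[ℝ] ℂ) : cz (c • A) = c • cz A := by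
  simp only [cz, smul_apply, Complex.real_smul]; ring

theorem cw_smul (c : ℝ) (A : ℂ →L[ℝ] ℂ) : cw (c • A) = c • cw A := by
  simp only [cw, smul_apply, Complex.real_smul]; ring

theorem norm_cz_conj (A : ℂ →L[ℝ] ℂ) :
    ‖cz ((Complex.conjCLE : ℂ →L[ℝ] ℂ).comp A)‖ = ‖cw A‖ := by
  rw [← Complex.norm_conj (cw A)]
  congr 1
  simp [cz, cw, sub_eq_add_neg, Complex.conj_ofNat]

theorem norm_cw_conj (A : ℂ →L[ℝ] ℂ) :
    ‖cw ((Complex.conjCLE : ℂ →L[ℝ] ℂ).comp A)‖ = ‖cz A‖ := by
  rw [← Complex.norm_conj (cz A)]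
  congr 1
  simp [cz, cw, Complex.conj_ofNat]

theorem norm_cz_le (A : ℂ →L[ℝ] ℂ) : ‖cz A‖ ≤ ‖A‖ := by
  have h1 := A.le_opNorm 1
  have h2 := A.le_opNorm Complex.I
  have h3 := norm_sub_le (A 1) (Complex.I * A Complex.I)
  simp only [norm_one, mul_one, Complex.norm_I, norm_mul, one_mul] at h1 h2 h3
  simp only [cz, norm_div, Complex.norm_ofNat]
  linarith

theorem norm_cw_le (A : ℂ →L[ℝ] ℂ) : ‖cw A‖ ≤ ‖A‖ := by
  have h1 := A.le_opNorm 1
  have h2 := A.le_opNorm Complex.I
  have h3 := norm_add_le (A 1) (Complex.I * A Complex.I)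
  simp only [norm_one, mul_one, Complex.norm_I, norm_mul, one_mul] at h1 h2 h3
  simp only [cw, norm_div, Complex.norm_ofNat]
  linarith

/-- A function of the two moduli that is continuous and quasiconvex. -/
def G2 (f : ℝ → ℝ → ℝ) : Prop := GQ fun A => f ‖cz A‖ ‖cw A‖

theorem G2.swap {f : ℝ → ℝ → ℝ} (h : G2 f) : G2 fun a b => f b a :=
  (GQ.refl h).congr fun A => by simp only [norm_cz_conj, norm_cw_conj]

theorem Lf_eq (a b : ℝ) : Lf a b = a ^ 2 - b ^ 2 + max (a + b - 1) 0 * (1 - (a - b)) := by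
  unfold Lf
  split_ifs with h
  · rw [max_eq_right (by linarith)]; ring
  · rw [max_eq_left (by linarith)]; ring

theorem g2_Lf (hB : SBMS) : G2 Lf := by
  have h : G2 fun a b => Lf b a := by
    refine ⟨?_, hB⟩
    simp_rw [Lf_eq]
    have := continuous_cz
    have := continuous_cw
    fun_prop
  exact h.swap

theorem g2_block (hB : SBMS) {t : ℝ} (ht : 0 < t) :
    G2 fun a b => a ^ 2 - b ^ 2 + max (a + b - t) 0 * (t - (a - b)) := by
  refine (((g2_Lf hB).scale t⁻¹).smul (sq_nonneg t)).congr fun A => ?_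
  simp only [cz_smul, cw_smul, norm_smul, Real.norm_eq_abs, abs_of_pos (inv_pos.2 ht), Lf_eq]
  have e : max (t⁻¹ * ‖cz A‖ + t⁻¹ * ‖cw A‖ - 1) 0 = t⁻¹ * max (‖cz A‖ + ‖cw A‖ - t) 0 := by
    rw [mul_max_of_nonneg _ _ (inv_pos.2 ht).le]
    congr 1
    · field_simp
    · simp
  rw [e]
  field_simp

theorem G2.limit {f : ℝ → ℝ → ℝ} (h : ∀ R ε : ℝ, 0 < R → 0 < ε → ∃ g, G2 g ∧
    ∀ a b, 0 ≤ a → 0 ≤ b → a + b ≤ R → |g a b - f a b| ≤ ε) : G2 f := by
  refine GQ.limit fun R ε hε => ?_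
  obtain ⟨g, h1, h2⟩ := h (2 * |R| + 1) ε (by positivity) hε
  refine ⟨_, h1, fun A hA => h2 _ _ (norm_nonneg _) (norm_nonneg _) ?_⟩
  linarith [norm_cz_le A, norm_cw_le A, le_abs_self R]

theorem g2_det (hB : SBMS) : G2 fun a b => a ^ 2 - b ^ 2 := by
  refine G2.limit fun R ε hR hε => ⟨_, g2_block hB hR, fun a b _ _ hab => ?_⟩
  rw [max_eq_right (by linarith)]
  simpa using hε.le

theorem g2_det_mul (hB : SBMS) (c : ℝ) : G2 fun a b => c * (a ^ 2 - b ^ 2) := by
  rcases le_total 0 c with hc | hc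
  · exact (g2_det hB).smul hc
  · exact ((g2_det hB).swap.smul (neg_nonneg.2 hc)).congr fun A => by ring

theorem g2_fst (hB : SBMS) : G2 fun a _ => a := by
  refine G2.limit fun R ε _ hε =>
    ⟨fun a b => (2 * ε)⁻¹ * (a ^ 2 - b ^ 2 + max (a + b - ε) 0 * (ε - (a - b))),
      (g2_block hB hε).smul (by positivity), fun a b ha hb _ => ?_⟩
  beta_reduce
  rcases le_total (a + b) ε with h | h
  · rw [max_eq_right (by linarith), abs_le]
    have e : (2 * ε)⁻¹ * (a ^ 2 - b ^ 2 + 0 * (ε - (a - b))) - a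
        = (a ^ 2 - b ^ 2 - 2 * ε * a) / (2 * ε) := by field_simp; ring
    rw [e, le_div_iff₀ (by positivity), div_le_iff₀ (by positivity)]
    constructor <;> nlinarith
  · rw [max_eq_left (by linarith)]
    have e : (2 * ε)⁻¹ * (a ^ 2 - b ^ 2 + (a + b - ε) * (ε - (a - b))) - a = -(ε / 2) := by
      field_simp; ring
    rw [e, abs_neg, abs_of_pos (by positivity)]
    linarith

theorem g2_lin (hB : SBMS) {c d : ℝ} (h : |d| ≤ c) :
    G2 fun a b => c * (a + b) + (a - b) * d := by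
  rw [abs_le] at h
  exact (((g2_fst hB).smul (c := c + d) (by linarith)).add
    ((g2_fst hB).swap.smul (c := c - d) (by linarith))).congr fun A => by ring

theorem g2_kink (hB : SBMS) {t c d : ℝ} (ht : 0 < t) (h : t * |d| ≤ c) :
    G2 fun a b => max (a + b - t) 0 * (c + (a - b) * d) := by
  have h1 : |d| ≤ c / t := by rw [le_div_iff₀ ht]; linarith
  rw [abs_le] at h1
  refine ((((g2_block hB ht).smul (c := (c / t - d) / 2) (by linarith)).add
    ((g2_block hB ht).swap.smul (c := (c / t + d) / 2) (by linarith))).add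
    (g2_det_mul hB d)).congr fun A => ?_
  simp only [add_comm ‖cw A‖ ‖cz A‖]
  field_simp
  ring

/-- Piecewise linear interpolation at the nodes `τ k`. -/
noncomputable def interp (f τ : ℕ → ℝ) (N : ℕ) (X : ℝ) : ℝ :=
  f 0 + (f 1 - f 0) / (τ 1 - τ 0) * (X - τ 0) + ∑ k ∈ Finset.range N, max (X - τ (k + 1)) 0 *
    ((f (k + 2) - f (k + 1)) / (τ (k + 2) - τ (k + 1)) - (f (k + 1) - f k) / (τ (k + 1) - τ k))

theorem interp_right (f : ℕ → ℝ) {τ : ℕ → ℝ} (hτ : StrictMono τ) (N : ℕ) {X : ℝ}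
    (hX : N = 0 ∨ τ N ≤ X) :
    interp f τ N X = f N + (f (N + 1) - f N) / (τ (N + 1) - τ N) * (X - τ N) := by
  induction N with
  | zero => simp [interp]
  | succ n ih =>
    have hX' : τ (n + 1) ≤ X := by simpa using hX
    have h1 := ih (Or.inr ((hτ.monotone (Nat.le_succ n)).trans hX'))
    have h2 : τ (n + 1) - τ n ≠ 0 := sub_ne_zero.2 (hτ (Nat.lt_succ_self n)).ne'
    unfold interp at h1 ⊢
    rw [Finset.sum_range_succ, ← add_assoc, h1, max_eq_left (by linarith)]
    field_simp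
    ring

theorem interp_left (f : ℕ → ℝ) {τ : ℕ → ℝ} (hτ : StrictMono τ) {k N : ℕ} (hk : k ≤ N) {X : ℝ}
    (hX : X ≤ τ (k + 1)) : interp f τ N X = interp f τ k X := by
  induction N, hk using Nat.le_induction with
  | base => rfl
  | succ n hn ih =>
    have : X ≤ τ (n + 1) := hX.trans (hτ.monotone (by omega))
    rw [← ih]
    unfold interp
    rw [Finset.sum_range_succ, max_eq_right (by linarith)]
    simp

theorem slope_bound {A B : ℝ → ℝ} (c1 : ∀ y, ConvexOn ℝ (Ici |y|) fun x => A x + y * B x)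
    (c2 : ∀ h x s, 0 ≤ h → h ≤ x → (s = 1 ∨ s = -1) →
      A h + s * h * B h + s * B h * (x - h) ≤ A x + s * h * B x) {R : ℝ} (hR : 0 ≤ R) :
    ∃ U, 0 < U ∧ ∀ y x x', |y| ≤ x → x ≤ x' → x' ≤ R →
      |A x' + y * B x' - (A x + y * B x)| ≤ U * (x' - x) := by
  set U := |A (R + 2) - A (R + 1)| + R * |B (R + 2) - B (R + 1)| + 1 with hU
  have up : ∀ y x x', |y| ≤ x → x < x' → x' ≤ R + 1 → |y| ≤ R →
      (A x' + y * B x' - (A x + y * B x)) / (x' - x) ≤ U := by
    intro y x x' h1 h2 h3 h4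
    have m1 : x ∈ Ici |y| := h1
    have m3 : R + 2 ∈ Ici |y| := by simp only [mem_Ici]; linarith
    have s1 := (c1 y).slope_mono_adjacent m1 m3 h2 (by linarith : x' < R + 2)
    have m2 : x' ∈ Ici |y| := by simp only [mem_Ici]; linarith
    have s2 : (A (R + 2) + y * B (R + 2) - (A x' + y * B x')) / (R + 2 - x')
        ≤ (A (R + 2) + y * B (R + 2) - (A (R + 1) + y * B (R + 1))) / (R + 2 - (R + 1)) := by
      rcases h3.lt_or_eq with h5 | h5
      · exact (c1 y).secant_mono_aux3 m2 m3 h5 (by linarith)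
      · rw [h5]
    have s3 : y * (B (R + 2) - B (R + 1)) ≤ R * |B (R + 2) - B (R + 1)| := by
      refine (le_abs_self _).trans ?_
      rw [abs_mul]
      exact mul_le_mul_of_nonneg_right h4 (abs_nonneg _)
    have e : R + 2 - (R + 1) = 1 := by ring
    rw [e, div_one] at s2
    linarith [le_abs_self (A (R + 2) - A (R + 1))]
  have hB : ∀ h s, 0 ≤ h → h ≤ R → (s = 1 ∨ s = -1) → s * B h ≤ U := by
    intro h s h0 h1 hs
    have e : |s * h| = h := by rcases hs with rfl | rfl <;> simp [abs_of_nonneg h0]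
    have u1 := up (s * h) h (R + 1) e.le (by linarith) le_rfl (by linarith)
    have u2 := c2 h (R + 1) s h0 (by linarith) hs
    refine le_trans ?_ u1
    rw [le_div_iff₀ (by linarith)]
    linarith
  refine ⟨U, by positivity, fun y x x' h1 h2 h3 => ?_⟩
  rcases h2.lt_or_eq with h2 | rfl
  swap
  · simp
  have hy : |y| ≤ R := by linarith
  have u1 := up y x x' h1 h2 (by linarith) hy
  rw [div_le_iff₀ (by linarith)] at u1
  rw [abs_le]
  refine ⟨?_, u1⟩
  obtain ⟨s, hs, e⟩ : ∃ s : ℝ, (s = 1 ∨ s = -1) ∧ y = s * |y| := by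
    rcases le_total 0 y with h | h
    · exact ⟨1, Or.inl rfl, by simp [abs_of_nonneg h]⟩
    · exact ⟨-1, Or.inr rfl, by simp [abs_of_nonpos h]⟩
  have l1 := hB |y| (-s) (abs_nonneg y) hy (by rcases hs with rfl | rfl <;> simp)
  have l2 := c2 |y| x' s (abs_nonneg y) (by linarith) hs
  rw [← e] at l2
  have l3 : -U ≤ (A x' + y * B x' - (A |y| + y * B |y|)) / (x' - |y|) := by
    rw [le_div_iff₀ (by linarith)]
    nlinarith
  have l4 : (A x' + y * B x' - (A |y| + y * B |y|)) / (x' - |y|)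
      ≤ (A x' + y * B x' - (A x + y * B x)) / (x' - x) := by
    rcases h1.lt_or_eq with h5 | h5
    · exact (c1 y).secant_mono_aux3 self_mem_Ici (by simp only [mem_Ici]; linarith) h5 h2
    · rw [h5]
  have l5 := l3.trans l4
  rw [le_div_iff₀ (by linarith)] at l5
  linarith

/-- Every function `A x + y * B x` of the signed singular values that is convex in each of them
separately is quasiconvex. -/
theorem g2_class (hB : SBMS) {A B : ℝ → ℝ}
    (c1 : ∀ y, ConvexOn ℝ (Ici |y|) fun x => A x + y * B x)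
    (c2 : ∀ h x s, 0 ≤ h → h ≤ x → (s = 1 ∨ s = -1) →
      A h + s * h * B h + s * B h * (x - h) ≤ A x + s * h * B x) :
    G2 fun a b => A (a + b) + (a - b) * B (a + b) := by
  refine G2.limit fun R ε hR hε => ?_
  obtain ⟨U, hU, hL⟩ := slope_bound c1 c2 (R := 4 * R) (by positivity)
  set e := min 1 (ε / (8 * U * R)) with he
  have e0 : 0 < e := by positivity
  have e1 : e ≤ 1 := min_le_left _ _
  have e2 : 8 * U * R * e ≤ ε := by
    have := min_le_right 1 (ε / (8 * U * R))
    rw [← he, le_div_iff₀ (by positivity)] at this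
    linarith
  set q := 1 + e with hq
  have q1 : 1 < q := by linarith
  set τ : ℕ → ℝ := fun k => e * R * q ^ k with hτ
  have τs : ∀ k, τ (k + 1) = q * τ k := fun k => by simp only [hτ]; ring
  have τp : ∀ k, 0 < τ k := fun k => by simp only [hτ]; positivity
  have τm : StrictMono τ := strictMono_nat_of_lt_succ fun k => by
    rw [τs]; nlinarith [τp k]
  obtain ⟨N, hN⟩ : ∃ N, R ≤ τ N := by
    obtain ⟨N, hN⟩ := pow_unbounded_of_one_lt (1 / e) q1
    refine ⟨N, ?_⟩
    rw [div_lt_iff₀ e0] at hN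
    simp only [hτ]
    nlinarith
  refine ⟨fun a b => interp (fun k => A (τ k) + (a - b) * B (τ k)) τ N (q * (a + b)), ?_,
    fun a b ha hb hab => ?_⟩
  · have d0 : 0 < τ 1 - τ 0 := sub_pos.2 (τm one_pos)
    have hl : |B (τ 0) - τ 0 * ((B (τ 1) - B (τ 0)) / (τ 1 - τ 0))|
        ≤ q * ((A (τ 1) - A (τ 0)) / (τ 1 - τ 0)) := by
      have u1 := c2 (τ 0) (τ 1) 1 (τp 0).le (by linarith) (Or.inl rfl)
      have u2 := c2 (τ 0) (τ 1) (-1) (τp 0).le (by linarith) (Or.inr rfl)
      have u3 : |B (τ 0) - τ 0 * ((B (τ 1) - B (τ 0)) / (τ 1 - τ 0))|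
          ≤ (A (τ 1) - A (τ 0)) / (τ 1 - τ 0) := by
        have e3 : B (τ 0) - τ 0 * ((B (τ 1) - B (τ 0)) / (τ 1 - τ 0))
            = (B (τ 0) * (τ 1 - τ 0) - τ 0 * (B (τ 1) - B (τ 0))) / (τ 1 - τ 0) := by
          field_simp
        rw [e3, abs_div, abs_of_pos d0]
        refine div_le_div_of_nonneg_right (abs_le.2 ⟨?_, ?_⟩) d0.le <;> linarith
      nlinarith [abs_nonneg (B (τ 0) - τ 0 * ((B (τ 1) - B (τ 0)) / (τ 1 - τ 0)))]
    have hk : ∀ k, τ k * |(B (τ (k + 2)) - B (τ (k + 1))) / (τ (k + 2) - τ (k + 1))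
        - (B (τ (k + 1)) - B (τ k)) / (τ (k + 1) - τ k)|
        ≤ (A (τ (k + 2)) - A (τ (k + 1))) / (τ (k + 2) - τ (k + 1))
          - (A (τ (k + 1)) - A (τ k)) / (τ (k + 1) - τ k) := by
      intro k
      have l1 : τ k < τ (k + 1) := τm (by omega)
      have l2 : τ (k + 1) < τ (k + 2) := τm (by omega)
      have s : ∀ y, |y| ≤ τ k → 0 ≤ ((A (τ (k + 2)) - A (τ (k + 1))) / (τ (k + 2) - τ (k + 1))
          - (A (τ (k + 1)) - A (τ k)) / (τ (k + 1) - τ k))
          + y * ((B (τ (k + 2)) - B (τ (k + 1))) / (τ (k + 2) - τ (k + 1))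
            - (B (τ (k + 1)) - B (τ k)) / (τ (k + 1) - τ k)) := by
        intro y hy
        have := (c1 y).slope_mono_adjacent (x := τ k) (z := τ (k + 2)) hy
          (by simp only [mem_Ici]; linarith) l1 l2
        have e3 : ∀ a b c d D : ℝ, (a + y * b - (c + y * d)) / D = (a - c) / D + y * ((b - d) / D) :=
          fun a b c d D => by ring
        rw [e3, e3] at this
        linarith
      have s1 := s (τ k) (abs_of_pos (τp k)).le
      have s2 := s (-τ k) (by rw [abs_neg]; exact (abs_of_pos (τp k)).le)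
      rw [← abs_of_pos (τp k), ← abs_mul, abs_of_pos (τp k), abs_le]
      constructor <;> linarith
    refine ((((GQ.const (A (τ 0) - τ 0 * ((A (τ 1) - A (τ 0)) / (τ 1 - τ 0)))).add
      (g2_lin hB hl)).add (g2_det_mul hB (q * ((B (τ 1) - B (τ 0)) / (τ 1 - τ 0))))).add
      (GQ.sum (Finset.range N) fun k _ =>
        (g2_kink hB (τp k) (hk k)).smul (c := q) (by linarith))).congr fun T => ?_
    simp only [interp]
    congr 1
    · ring
    · refine Finset.sum_congr rfl fun k _ => ?_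
      have e3 : max (q * (‖cz T‖ + ‖cw T‖) - τ (k + 1)) 0
          = q * max (‖cz T‖ + ‖cw T‖ - τ k) 0 := by
        rw [mul_max_of_nonneg _ _ (by linarith : (0 : ℝ) ≤ q), τs, mul_zero, mul_sub]
      rw [e3]
      ring
  · beta_reduce
    set x := a + b with hx
    set y := a - b with hy
    have x0 : 0 ≤ x := by linarith
    have yx : |y| ≤ x := abs_le.2 ⟨by linarith, by linarith⟩
    have hex : ∃ k, q * x ≤ τ (k + 1) := ⟨N, by rw [τs]; nlinarith⟩
    classical
    set k := Nat.find hex with hk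
    have k1 : q * x ≤ τ (k + 1) := Nat.find_spec hex
    have k2 : k ≤ N := Nat.find_min' hex (by rw [τs]; nlinarith)
    have k3 : k = 0 ∨ τ k ≤ q * x := by
      rcases Nat.eq_zero_or_pos k with h | h
      · exact Or.inl h
      · have := Nat.find_min hex (m := k - 1) (by omega)
        rw [Nat.sub_add_cancel h] at this
        exact Or.inr (not_le.1 this).le
    have k4 : x ≤ τ k := by
      rw [τs] at k1
      exact le_of_mul_le_mul_left k1 (by linarith)
    have τ0 : τ 0 = e * R := by simp [hτ]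
    have k5 : τ k ≤ x + e * R := by
      rcases k3 with h | h
      · rw [h, τ0]; linarith
      · nlinarith
    have k6 : τ (k + 1) ≤ 4 * R := by rw [τs]; nlinarith [τp k]
    have lt1 : τ k < τ (k + 1) := τm (by omega)
    rw [interp_left _ τm k2 k1, interp_right _ τm k k3]
    have b1 := hL y x (τ k) yx k4 (by linarith)
    have b2 := hL y (τ k) (τ (k + 1)) (by linarith) lt1.le k6
    have b3 : |(A (τ (k + 1)) + y * B (τ (k + 1)) - (A (τ k) + y * B (τ k)))
        / (τ (k + 1) - τ k)| ≤ U := by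
      rw [abs_div, abs_of_pos (sub_pos.2 lt1), div_le_iff₀ (sub_pos.2 lt1)]
      exact b2
    have b4 : |q * x - τ k| ≤ e * R := abs_le.2 ⟨by nlinarith, by nlinarith⟩
    have b5 := mul_le_mul b3 b4 (abs_nonneg _) hU.le
    rw [← abs_mul] at b5
    have b6 : U * (τ k - x) ≤ U * (e * R) := mul_le_mul_of_nonneg_left (by linarith) hU.le
    rw [abs_le] at b1 b5 ⊢
    have b7 : 0 ≤ U * (e * R) := by positivity
    constructor <;> nlinarith

end Pool.Agent.MP_515557_an.H11.Mono
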