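import Mathlib

/-! Definitions and statements for the monotone subset proof that the function of Sverak is
quasiconvex. -/

set_option autoImplicit false

open MeasureTheory Set Metric Filter Topology
open scoped ENNReal

namespace Pool.Agent.MP_515557_an.H11.Mono

/-- Real inner product of two complex numbers. -/
def ip (a b : ℂ) : ℝ := a.re * b.re + a.im * b.im

/-- Cross product of two complex numbers. -/
def cr (a b : ℂ) : ℝ := a.re * b.im - a.im * b.re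

/-- The monotonicity pairing of a field at two points. -/
def FF (v : ℂ → ℂ) (x y : ℂ) : ℝ := ip (v x - v y) (x - y)

/-- A field with bounded Lipschitz derivative, and a continuous lower bound for the symmetric part
of the derivative. -/
structure Data (v : ℂ → ℂ) (l : ℂ → ℝ) (M K : ℝ) : Prop where
  Mpos : 0 < M
  Kpos : 0 < K
  diff : Differentiable ℝ v
  bd : ∀ x, ‖fderiv ℝ v x‖ ≤ M
  lip : ∀ x y, ‖fderiv ℝ v x - fderiv ℝ v y‖ ≤ K * ‖x - y‖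
  cont : Continuous l
  le : ∀ x h, l x * ‖h‖ ^ 2 ≤ ip (fderiv ℝ v x h) h

/-- A compact set on which the field is monotone, with margin `σ`. -/
structure Adm (v : ℂ → ℂ) (l : ℂ → ℝ) (σ : ℝ) (C : Set ℂ) : Prop where
  pos : 0 < σ
  cpt : IsCompact C
  mono : ∀ x ∈ C, ∀ y ∈ C, 0 ≤ FF v x y
  marg : ∀ x ∈ C, σ ≤ l x

/-- A closed cone of directions of slope at most `ε` around the positive real axis. -/
structure Sect (ε : ℝ) (S : Set ℂ) : Prop where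
  closed : IsClosed S
  cone : ∀ w ∈ S, ∀ t : ℝ, 0 < t → t • w ∈ S
  slope : ∀ w ∈ S, |w.im| ≤ ε * w.re

/-- Conflict pairs at level `δ` with direction in `S`; at level zero these are the tight pairs. -/
def conf (v : ℂ → ℂ) (C S : Set ℂ) (δ : ℝ) : Set (ℂ × ℂ) :=
  {g | g.1 ∈ C ∧ g.2 ∈ C ∧ g.1 ≠ g.2 ∧ g.2 - g.1 ∈ S ∧ FF v g.1 g.2 ≤ δ * ‖g.1 - g.2‖ ^ 2}

/-- Tight pairs that cannot be prolonged along their line. -/
def maxl (v : ℂ → ℂ) (C S : Set ℂ) : Set (ℂ × ℂ) :=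
  {g | g ∈ conf v C S 0 ∧ ∀ t : ℝ, 0 < t →
    (g.1 - t • (g.2 - g.1) ∈ C → FF v (g.1 - t • (g.2 - g.1)) g.2 ≠ 0) ∧
    (g.2 + t • (g.2 - g.1) ∈ C → FF v g.1 (g.2 + t • (g.2 - g.1)) ≠ 0)}

/-- The set swept by the tight segments with direction in `S`. -/
def swept (v : ℂ → ℂ) (C S : Set ℂ) : Set ℂ :=
  {p | ∃ g ∈ conf v C S 0, p ∈ segment ℝ g.1 g.2}

/-- Crossing tight segments: their end points lie in a countable set. -/
def SCrossA : Prop :=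
  ∀ (v : ℂ → ℂ) (l : ℂ → ℝ) (M K σ : ℝ) (C : Set ℂ), Data v l M K → Adm v l σ C →
    ∃ N : Set ℂ, N.Countable ∧ ∀ g ∈ conf v C univ 0, ∀ g' ∈ conf v C univ 0,
      cr (g.2 - g.1) (g'.2 - g'.1) ≠ 0 →
      ∀ p ∈ openSegment ℝ g.1 g.2, p ∈ openSegment ℝ g'.1 g'.2 → g.1 ∈ N ∧ g.2 ∈ N

/-- Parallel maximal tight segments that overlap are equal. -/
def SCrossB : Prop :=
  ∀ (v : ℂ → ℂ) (l : ℂ → ℝ) (σ ε : ℝ) (C S : Set ℂ), Adm v l σ C → 0 < ε → Sect ε S →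
    ∀ g ∈ maxl v C S, ∀ g' ∈ maxl v C S, cr (g.2 - g.1) (g'.2 - g'.1) = 0 →
      ∀ p ∈ openSegment ℝ g.1 g.2, p ∈ openSegment ℝ g'.1 g'.2 → g = g'

/-- A point of `C` on a tight segment has a tight partner. -/
def SCrossC : Prop :=
  ∀ (v : ℂ → ℂ) (l : ℂ → ℝ) (σ : ℝ) (C : Set ℂ), Adm v l σ C →
    ∀ g ∈ conf v C univ 0, ∀ p ∈ segment ℝ g.1 g.2, p ∈ C →
      p ∈ Prod.fst '' conf v C univ 0

/-- Area swept by a family of disjoint, nearly horizontal segments from one slab to another. -/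
def SArea : Prop :=
  ∀ (Γ : Set (ℂ × ℂ)) (W : Set ℂ) (p q r ε Λ κ : ℝ), p < q → 0 ≤ r → 0 ≤ ε → 0 ≤ Λ →
    0 < κ → κ < 1 / 4 → ε * Λ ≤ κ → r ≤ κ ^ 2 * (q - p) →
    (∀ g ∈ Γ, p - r ≤ g.1.re ∧ g.1.re ≤ p ∧ q ≤ g.2.re ∧ g.2.re ≤ q + r ∧
      |(g.2 - g.1).im| ≤ ε * (g.2 - g.1).re) →
    (∀ g ∈ Γ, ∀ g' ∈ Γ, |g.1.re - g'.1.re| ≤ Λ * |g.1.im - g'.1.im| ∧
      |g.2.re - g'.2.re| ≤ Λ * |g.2.im - g'.2.im|) →
    (∀ g ∈ Γ, ∀ g' ∈ Γ, g ≠ g' → Disjoint (openSegment ℝ g.1 g.2) (openSegment ℝ g'.1 g'.2)) →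
    MeasurableSet W → (∀ g ∈ Γ, openSegment ℝ g.1 g.2 ⊆ W) →
    ENNReal.ofReal ((1 - 4 * κ) * (q - p) / 2) *
      (volume ((fun g : ℂ × ℂ => g.1.im) '' Γ) + volume ((fun g : ℂ × ℂ => g.2.im) '' Γ))
      ≤ volume W

/-- Cost of the tails of conflict pairs in one vertical slab. -/
def SCost : Prop :=
  ∀ (v : ℂ → ℂ) (l : ℂ → ℝ) (M K σ κ ε r p : ℝ) (C S : Set ℂ) (G : ℝ → ℝ≥0∞),
    Data v l M K → Adm v l σ C → 0 < κ → κ ≤ 1 / 10 → 0 < ε → ε ≤ κ → 32 * ε * M ≤ κ * σ →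
    Sect ε S → 0 < r → 16 * K * r ≤ κ * σ → Measurable G →
    (∀ᵐ a : ℝ, ∀ g ∈ maxl v C S, g.1.im = a → p < g.1.re → g.1.re ≤ p + r →
      ENNReal.ofReal (g.2.re - p) ≤ G a) →
    ∀ η : ℝ≥0∞, 0 < η → ∀ᶠ δ in 𝓝[>] (0 : ℝ),
      ∫⁻ x in (Prod.fst '' conf v C S δ) ∩ {x | p < x.re ∧ x.re ≤ p + r}, ENNReal.ofReal (l x)
        ≤ ENNReal.ofReal δ * (ENNReal.ofReal (1 + 5 * κ) * (∫⁻ a, G a) + η)

/-- Cost of tails plus cost of heads in one sector. -/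
def SSector : Prop :=
  ∀ (v : ℂ → ℂ) (l : ℂ → ℝ) (M K σ κ ε : ℝ) (C S : Set ℂ),
    Data v l M K → Adm v l σ C → 0 < κ → κ ≤ 1 / 10 → 0 < ε → ε ≤ κ → 32 * ε * M ≤ κ * σ →
    Sect ε S → ∀ η : ℝ≥0∞, 0 < η → ∀ᶠ δ in 𝓝[>] (0 : ℝ),
      (∫⁻ x in Prod.fst '' conf v C S δ, ENNReal.ofReal (l x))
        + (∫⁻ x in Prod.snd '' conf v C S δ, ENNReal.ofReal (l x))
        ≤ ENNReal.ofReal δ * (ENNReal.ofReal (2 * (1 + 20 * κ)) * volume (swept v C S) + η)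

/-- The removal lemma. -/
def SRemoval : Prop :=
  ∀ (v : ℂ → ℂ) (l : ℂ → ℝ) (M K σ R : ℝ) (C : Set ℂ), Data v l M K → Adm v l σ C →
    C ⊆ closedBall 0 R → ∀ η : ℝ, 0 < η → ∀ δ₀ : ℝ, 0 < δ₀ →
    ∃ δ : ℝ, 0 < δ ∧ δ ≤ δ₀ ∧ ∃ E : Set ℂ, E ⊆ C ∧ MeasurableSet E ∧
      (∀ x ∈ C \ E, ∀ y ∈ C \ E, δ * ‖x - y‖ ^ 2 ≤ FF v x y) ∧
      ∫ x in E, l x ≤ δ * ((volume (closedBall (0 : ℂ) R \ C)).toReal + η)

/-- Existence of a monotone subset with complement of almost nonpositive cost. -/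
def SMC : Prop :=
  ∀ (v : ℂ → ℂ) (l : ℂ → ℝ) (M K R η : ℝ), Data v l M K → 0 < η →
    ∃ C : Set ℂ, IsCompact C ∧ C ⊆ closedBall 0 R ∧ (∀ x ∈ C, ∀ y ∈ C, 0 ≤ FF v x y) ∧
      (∀ x ∈ C, 0 ≤ l x) ∧ ∫ x in closedBall (0 : ℂ) R \ C, l x ≤ η

/-- Conformal part of a real linear map of the plane. -/
noncomputable def cz (A : ℂ →L[ℝ] ℂ) : ℂ := (A 1 - Complex.I * A Complex.I) / 2

/-- Anticonformal part of a real linear map of the plane. -/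
noncomputable def cw (A : ℂ →L[ℝ] ℂ) : ℂ := (A 1 + Complex.I * A Complex.I) / 2

/-- The function of Sverak in terms of the two moduli. -/
noncomputable def Lf (a b : ℝ) : ℝ := if a + b ≤ 1 then a ^ 2 - b ^ 2 else 2 * a - 1

/-- Quasiconvexity tested on smooth compactly supported maps of the complex plane. -/
def SQC (W : (ℂ →L[ℝ] ℂ) → ℝ) : Prop :=
  ∀ (A : ℂ →L[ℝ] ℂ) (u : ℂ → ℂ), ContDiff ℝ 2 u → HasCompactSupport u →
    0 ≤ ∫ x, (W (A + fderiv ℝ u x) - W A)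

/-- The conjecture of Sverak, at every base point, for smooth maps. -/
def SBMS : Prop := SQC fun A => Lf ‖cw A‖ ‖cz A‖

/-- The real linear map of the complex plane with a given matrix. -/
noncomputable def toCLM (F : Matrix (Fin 2) (Fin 2) ℝ) : ℂ →L[ℝ] ℂ :=
  (F 0 0 • Complex.reCLM + F 0 1 • Complex.imCLM).smulRight (1 : ℂ)
    + (F 1 0 • Complex.reCLM + F 1 1 • Complex.imCLM).smulRight Complex.I

/-- Quasiconvexity, in the form of the frozen statement. -/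
def QCm (W : Matrix (Fin 2) (Fin 2) ℝ → ℝ) : Prop :=
  ∀ F₀ : Matrix (Fin 2) (Fin 2) ℝ, ∀ Ω : Set (Fin 2 → ℝ), IsOpen Ω → Bornology.IsBounded Ω →
    ∀ ϑ : (Fin 2 → ℝ) → (Fin 2 → ℝ), (∃ K, LipschitzWith K ϑ) → (∀ x, x ∉ Ω → ϑ x = 0) →
      W F₀ * (volume Ω).toReal ≤
        ∫ x in Ω, W (F₀ + LinearMap.toMatrix'
          ((fderiv ℝ ϑ x : (Fin 2 → ℝ) →L[ℝ] (Fin 2 → ℝ)) : (Fin 2 → ℝ) →ₗ[ℝ] (Fin 2 → ℝ)))

/-- From smooth test maps on the complex plane to Lipschitz test maps and matrices. -/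
def SMoll : Prop :=
  ∀ W : (ℂ →L[ℝ] ℂ) → ℝ, Continuous W → SQC W → QCm fun F => W (toCLM F)

end Pool.Agent.MP_515557_an.H11.Mono
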