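import Pool.Agent.MP_515557_an.H11.MBurk
import Pool.Agent.MP_515557_an.H2.Cross
import Pool.Agent.MP_515557_an.H93.Area
import Pool.Agent.MP_515557_an.H19.Cost
import Pool.Agent.MP_515557_an.H29.Sector
import Pool.Agent.MP_515557_an.H50.Removal
import Pool.Agent.MP_515557_an.H71.MC
import Pool.Agent.MP_515557_an.H79.Moll

/-! Assembly of the monotone subset proof. -/

set_option autoImplicit false

namespace Pool.Agent.MP_515557_an.H11.Mono

theorem smc : SMC :=
  H71.mc (H50.removal H2.crossA H2.crossC (H29.sector H2.crossA H2.crossB H93.area H19.cost))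

theorem sbms : SBMS := H30.bms smc

end Pool.Agent.MP_515557_an.H11.Mono
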