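import Pool.Agent.MP_515557_an.H11.MClass
import Pool.Agent.MP_515557_an.H30.Bms

/-! The class theorem for matrices, the functions of Burkholder and the inequality of Iwaniec. -/

set_option autoImplicit false

open MeasureTheory Set Metric Filter Topology

namespace Pool.Agent.MP_515557_an.H11.Mono

theorem exists_unit (T : ℂ →L[ℝ] ℂ) : ∃ h : ℂ, ‖h‖ = 1 ∧ ‖T h‖ = ‖cz T‖ + ‖cw T‖ := by
  set α := (cz T).arg
  set β := (cw T).arg
  set h : ℂ := Complex.exp (((β - α) / 2 : ℝ) * Complex.I) with hh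
  refine ⟨h, Complex.norm_exp_ofReal_mul_I _, ?_⟩
  have h3 : T h = ((‖cz T‖ + ‖cw T‖ : ℝ) : ℂ) * Complex.exp (((α + β) / 2 : ℝ) * Complex.I) := by
    rw [H30.apply_eq T h]
    conv_lhs => rw [← Complex.norm_mul_exp_arg_mul_I (cz T),
      ← Complex.norm_mul_exp_arg_mul_I (cw T)]
    rw [hh, ← Complex.exp_conj, mul_assoc, mul_assoc, ← Complex.exp_add, ← Complex.exp_add,
      Complex.ofReal_add, add_mul]
    congr 2
    · congr 1; push_cast; ring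
    · congr 1
      simp only [map_mul, Complex.conj_ofReal, Complex.conj_I]
      push_cast; ring
  rw [h3, norm_mul, Complex.norm_exp_ofReal_mul_I, mul_one, Complex.norm_real,
    Real.norm_eq_abs, abs_of_nonneg (by positivity)]

theorem norm_apply_le (T : ℂ →L[ℝ] ℂ) (h : ℂ) : ‖T h‖ ≤ (‖cz T‖ + ‖cw T‖) * ‖h‖ := by
  rw [H30.apply_eq T h]
  refine (norm_add_le _ _).trans ?_
  rw [norm_mul, norm_mul, Complex.norm_conj]
  linarith

theorem norm_eq_add (T : ℂ →L[ℝ] ℂ) : ‖T‖ = ‖cz T‖ + ‖cw T‖ := by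
  refine le_antisymm (T.opNorm_le_bound (by positivity) (norm_apply_le T)) ?_
  obtain ⟨h, h1, h2⟩ := exists_unit T
  have := T.le_opNorm h
  rwa [h1, h2, mul_one] at this

theorem toCLM_apply (F : Matrix (Fin 2) (Fin 2) ℝ) (h : ℂ) :
    toCLM F h = ⟨F 0 0 * h.re + F 0 1 * h.im, F 1 0 * h.re + F 1 1 * h.im⟩ := by
  apply Complex.ext <;> simp [toCLM]

theorem cz_toCLM (F : Matrix (Fin 2) (Fin 2) ℝ) :
    cz (toCLM F) = ⟨(F 0 0 + F 1 1) / 2, (F 1 0 - F 0 1) / 2⟩ := by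
  apply Complex.ext <;> simp [cz, toCLM_apply]

theorem cw_toCLM (F : Matrix (Fin 2) (Fin 2) ℝ) :
    cw (toCLM F) = ⟨(F 0 0 - F 1 1) / 2, (F 1 0 + F 0 1) / 2⟩ := by
  apply Complex.ext <;> simp [cw, toCLM_apply]
  ring

theorem norm_cz_toCLM (F : Matrix (Fin 2) (Fin 2) ℝ) :
    ‖cz (toCLM F)‖ = √((F 0 0 + F 1 1) ^ 2 + (F 1 0 - F 0 1) ^ 2) / 2 := by
  rw [cz_toCLM, Complex.norm_eq_sqrt_sq_add_sq, eq_div_iff two_ne_zero,
    ← Real.sqrt_sq (by norm_num : (0 : ℝ) ≤ 2), ← Real.sqrt_mul (by positivity)]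
  congr 1
  simp only [Real.sqrt_sq (by norm_num : (0 : ℝ) ≤ 2)]
  ring

theorem norm_cw_toCLM (F : Matrix (Fin 2) (Fin 2) ℝ) :
    ‖cw (toCLM F)‖ = √((F 0 0 - F 1 1) ^ 2 + (F 1 0 + F 0 1) ^ 2) / 2 := by
  rw [cw_toCLM, Complex.norm_eq_sqrt_sq_add_sq, eq_div_iff two_ne_zero,
    ← Real.sqrt_sq (by norm_num : (0 : ℝ) ≤ 2), ← Real.sqrt_mul (by positivity)]
  congr 1
  simp only [Real.sqrt_sq (by norm_num : (0 : ℝ) ≤ 2)]
  ring

theorem det_toCLM (F : Matrix (Fin 2) (Fin 2) ℝ) :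
    F.det = ‖cz (toCLM F)‖ ^ 2 - ‖cw (toCLM F)‖ ^ 2 := by
  rw [Complex.sq_norm, Complex.sq_norm, cz_toCLM, cw_toCLM, Matrix.det_fin_two,
    Complex.normSq_mk, Complex.normSq_mk]
  ring

theorem isGreatest_opNorm (F : Matrix (Fin 2) (Fin 2) ℝ) :
    IsGreatest {r : ℝ | ∃ x y : ℝ, x ^ 2 + y ^ 2 = 1 ∧
      r = √((F 0 0 * x + F 0 1 * y) ^ 2 + (F 1 0 * x + F 1 1 * y) ^ 2)}
      (‖cz (toCLM F)‖ + ‖cw (toCLM F)‖) := by
  constructor
  · obtain ⟨h, h1, h2⟩ := exists_unit (toCLM F)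
    refine ⟨h.re, h.im, ?_, ?_⟩
    · have := Complex.sq_norm h
      rw [h1, Complex.normSq_apply] at this
      linarith
    · rw [← h2, toCLM_apply, Complex.norm_eq_sqrt_sq_add_sq]
  · rintro r ⟨x, y, h1, rfl⟩
    have h2 := norm_apply_le (toCLM F) ⟨x, y⟩
    have h3 : ‖(⟨x, y⟩ : ℂ)‖ = 1 := by
      rw [Complex.norm_eq_sqrt_sq_add_sq, h1, Real.sqrt_one]
    rwa [h3, mul_one, toCLM_apply, Complex.norm_eq_sqrt_sq_add_sq] at h2

theorem rank_E (c : ℝ) (hc : c ≠ 0) : (!![c, 0; 0, 0] : Matrix (Fin 2) (Fin 2) ℝ).rank = 1 := by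
  have : (!![c, 0; 0, 0] : Matrix (Fin 2) (Fin 2) ℝ) = Matrix.diagonal ![c, 0] := by
    ext i j
    fin_cases i <;> fin_cases j <;> simp
  rw [this, Matrix.rank_diagonal, Fintype.card_eq_one_iff]
  refine ⟨⟨0, by simpa using hc⟩, ?_⟩
  rintro ⟨i, hi⟩
  fin_cases i
  · rfl
  · simp at hi

/-- Rank-one convexity, in the form of the frozen statement. -/
def RCm (W : Matrix (Fin 2) (Fin 2) ℝ → ℝ) : Prop :=
  ∀ F H : Matrix (Fin 2) (Fin 2) ℝ, H.rank = 1 → ∀ t : ℝ, 0 ≤ t → t ≤ 1 →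
    W ((1 - t) • F + t • (F + H)) ≤ (1 - t) * W F + t * W (F + H)

theorem RCm.convexOn {W : Matrix (Fin 2) (Fin 2) ℝ → ℝ} (h : RCm W) (y : ℝ) :
    ConvexOn ℝ univ fun x : ℝ => W !![x, 0; 0, y] := by
  refine convexOn_iff_pairwise_pos.2 ⟨convex_univ, fun x _ x' _ hne a b _ hb hab => ?_⟩
  have h1 := h !![x, 0; 0, y] _ (rank_E (x' - x) (sub_ne_zero.2 hne.symm)) b hb.le (by linarith)
  have e1 : (!![x, 0; 0, y] : Matrix (Fin 2) (Fin 2) ℝ) + !![x' - x, 0; 0, 0]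
      = !![x', 0; 0, y] := by
    ext i j
    fin_cases i <;> fin_cases j <;> simp
  have e2 : a = 1 - b := by linarith
  have e3 : (1 - b) • (!![x, 0; 0, y] : Matrix (Fin 2) (Fin 2) ℝ) + b • !![x', 0; 0, y]
      = !![(1 - b) • x + b • x', 0; 0, y] := by
    ext i j
    fin_cases i <;> fin_cases j <;> simp
    ring
  rw [e1, e3] at h1
  rw [e2]
  exact h1

theorem norm_diag (x y : ℝ) :
    ‖cz (toCLM !![x, 0; 0, y])‖ + ‖cw (toCLM !![x, 0; 0, y])‖ = max |x| |y| := by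
  rw [norm_cz_toCLM, norm_cw_toCLM]
  simp only [Matrix.of_apply, Matrix.cons_val', Matrix.cons_val_zero, Matrix.cons_val_one,
    Matrix.cons_val_fin_one, sub_zero, add_zero, ne_eq, OfNat.ofNat_ne_zero, not_false_eq_true,
    zero_pow, Real.sqrt_sq_eq_abs]
  rcases abs_cases (x + y) with ⟨h1, _⟩ | ⟨h1, _⟩ <;>
  rcases abs_cases (x - y) with ⟨h2, _⟩ | ⟨h2, _⟩ <;>
  rcases abs_cases x with ⟨h3, _⟩ | ⟨h3, _⟩ <;>
  rcases abs_cases y with ⟨h4, _⟩ | ⟨h4, _⟩ <;>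
  rcases max_cases |x| |y| with ⟨h5, _⟩ | ⟨h5, _⟩ <;> linarith

theorem class_main (hB : SBMS) (hM : SMoll) (α β : ℝ → ℝ) (W : Matrix (Fin 2) (Fin 2) ℝ → ℝ)
    (N : Matrix (Fin 2) (Fin 2) ℝ → ℝ)
    (hN : ∀ F, IsGreatest {r : ℝ | ∃ x y : ℝ, x ^ 2 + y ^ 2 = 1 ∧
      r = √((F 0 0 * x + F 0 1 * y) ^ 2 + (F 1 0 * x + F 1 1 * y) ^ 2)} (N F))
    (hW : ∀ F, W F = α (N F) + β (N F) * F.det) (hrc : RCm W) : QCm W := by
  have opNorm_toCLM : ∀ F, N F = ‖cz (toCLM F)‖ + ‖cw (toCLM F)‖ := fun F =>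
    (hN F).unique (isGreatest_opNorm F)
  have hd : ∀ x y : ℝ, W !![x, 0; 0, y] = α (max |x| |y|) + β (max |x| |y|) * (x * y) := by
    intro x y
    rw [hW, opNorm_toCLM, norm_diag, Matrix.det_fin_two_of]
    ring
  have c1 : ∀ y, ConvexOn ℝ (Ici |y|) fun x => α x + y * (x * β x) := by
    intro y
    refine ((hrc.convexOn y).subset (subset_univ _) (convex_Ici _)).congr fun x hx => ?_
    have hx' : |y| ≤ x := hx
    have hx0 : 0 ≤ x := (abs_nonneg y).trans hx'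
    simp only [hd]
    rw [abs_of_nonneg hx0, max_eq_left hx']
    ring
  have c2 : ∀ h x s, 0 ≤ h → h ≤ x → (s = 1 ∨ s = -1) →
      α h + s * h * (h * β h) + s * (h * β h) * (x - h) ≤ α x + s * h * (x * β x) := by
    intro h x s h0 hx hs
    have es : |s * h| = h := by rcases hs with rfl | rfl <;> simp [abs_of_nonneg h0]
    have hc := hrc.convexOn (s * h)
    rcases h0.lt_or_eq with h1 | rfl
    · rcases hx.lt_or_eq with h2 | rfl
      · have := hc.slope_mono_adjacent (x := -h) (y := h) (z := x) (mem_univ _) (mem_univ _)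
          (by linarith) h2
        simp only [hd, es, abs_neg, abs_of_nonneg h0, abs_of_nonneg (h0.trans hx), max_self,
          max_eq_left hx] at this
        rw [div_le_div_iff₀ (by linarith) (by linarith)] at this
        have h3 : 2 * h * (α h + s * h * (h * β h) + s * (h * β h) * (x - h))
            ≤ 2 * h * (α x + s * h * (x * β x)) := by linarith
        exact le_of_mul_le_mul_left h3 (by linarith)
      · simp
    · have := hc.2 (mem_univ (-x)) (mem_univ x) (by norm_num : (0 : ℝ) ≤ 1 / 2)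
        (by norm_num : (0 : ℝ) ≤ 1 / 2) (by norm_num)
      have e : (1 / 2 : ℝ) • (-x) + (1 / 2 : ℝ) • x = 0 := by simp
      rw [e] at this
      simp only [hd, mul_zero, abs_zero, abs_neg, abs_of_nonneg hx, max_eq_left hx, max_self,
        add_zero, smul_eq_mul] at this
      simp only [mul_zero, zero_mul, add_zero]
      linarith
  have h := g2_class hB c1 c2
  have h2 := hM _ h.1 h.2
  have e : W = fun F => α (‖cz (toCLM F)‖ + ‖cw (toCLM F)‖) + (‖cz (toCLM F)‖ - ‖cw (toCLM F)‖)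
      * ((‖cz (toCLM F)‖ + ‖cw (toCLM F)‖) * β (‖cz (toCLM F)‖ + ‖cw (toCLM F)‖)) := by
    funext F
    rw [hW, opNorm_toCLM, det_toCLM]
    ring
  rw [e]
  exact h2

end Pool.Agent.MP_515557_an.H11.Mono
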