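import Pool.Agent.MP_515557_an.H11.Kernel

/-! From trigonometric fields to Lipschitz test maps. -/

set_option autoImplicit false

open MeasureTheory Set Real Filter Topology

namespace Pool.Agent.MP_515557_an.H11

/-- The Jacobian matrix of a map of the plane. -/
noncomputable def jac (ϑ : V → V) (x : V) : E := fun r c => fderiv ℝ ϑ x (ev c) r

theorem norm_ev (c : Fin 2) : ‖ev c‖ = 1 := by
  simp [ev, Pi.norm_single]

theorem measurable_jac (ϑ : V → V) : Measurable (jac ϑ) := by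
  refine measurable_pi_iff.2 fun r => measurable_pi_iff.2 fun c => ?_
  exact (measurable_pi_apply r).comp (measurable_fderiv_apply_const ℝ ϑ (ev c))

theorem norm_jac_le {ϑ : V → V} {L : NNReal} (h : LipschitzWith L ϑ) (x : V) : ‖jac ϑ x‖ ≤ L := by
  refine (pi_norm_le_iff_of_nonneg L.2).2 fun r => (pi_norm_le_iff_of_nonneg L.2).2 fun c => ?_
  have h1 := norm_le_pi_norm (fderiv ℝ ϑ x (ev c)) r
  have h2 := (fderiv ℝ ϑ x).le_opNorm (ev c)
  have h3 := norm_fderiv_le_of_lipschitz ℝ (x₀ := x) h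
  rw [norm_ev, mul_one] at h2
  exact h1.trans (h2.trans h3)

theorem jac_ae_zero {ϑ : V → V} {Ω : Set V} (hΩ : IsOpen Ω) (h0 : ∀ x, x ∉ Ω → ϑ x = 0) :
    ∀ᵐ x, x ∉ Ω → jac ϑ x = 0 := by
  set s : Set V := Ωᶜ ∩ {x | DifferentiableAt ℝ ϑ x} with hs
  have hsm : MeasurableSet s :=
    hΩ.measurableSet.compl.inter (measurableSet_of_differentiableAt ℝ ϑ)
  have happ : ApproximatesLinearOn ϑ (0 : V →L[ℝ] V) s 0 := by
    intro x hx y hy
    simp [h0 x hx.1, h0 y hy.1]
  have := happ.norm_fderiv_sub_le volume hsm (fderiv ℝ ϑ)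
    (fun x hx => hx.2.hasFDerivAt.hasFDerivWithinAt)
  rw [ae_restrict_iff' hsm] at this
  filter_upwards [this] with x hx hxΩ
  have hz : fderiv ℝ ϑ x = 0 := by
    by_cases hd : DifferentiableAt ℝ ϑ x
    · simpa using hx ⟨hxΩ, hd⟩
    · exact fderiv_zero_of_not_differentiableAt hd
  ext r c
  simp [jac, hz]

theorem lipschitz_cos_ph (R : ℝ) (k : Fin 2 → ℤ) (φ : ℝ) :
    ∃ C, LipschitzWith C fun y : V => cos (ph R k y + φ) := by
  let L : V →L[ℝ] ℝ := ((k 0 : ℝ) / R) • ContinuousLinearMap.proj 0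
    + ((k 1 : ℝ) / R) • ContinuousLinearMap.proj 1
  have e : (fun y : V => cos (ph R k y + φ)) = cos ∘ (fun t => t + φ) ∘ L := by
    ext y
    simp only [L, ph, Function.comp_apply, add_apply,
      smul_apply, ContinuousLinearMap.proj_apply, smul_eq_mul]
    congr 2
    ring
  rw [e]
  exact ⟨_, lipschitzWith_cos.comp ((isometry_add_right φ).lipschitz.comp L.lipschitz)⟩

theorem fourier_jac {ϑ : V → V} {L : NNReal} (h : LipschitzWith L ϑ) (hc : HasCompactSupport ϑ)
    (R : ℝ) (k : Fin 2 → ℤ) (φ : ℝ) (r c : Fin 2) :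
    ∫ y, cos (ph R k y + φ) * jac ϑ y r c
      = (R⁻¹ * ∫ y, sin (ph R k y + φ) * ϑ y r) * (k c : ℝ) := by
  obtain ⟨C, hC⟩ := lipschitz_cos_ph R k φ
  have hr : LipschitzWith (1 * L) fun y => ϑ y r := (LipschitzWith.eval r).comp h
  have hcr : HasCompactSupport fun y => ϑ y r :=
    hc.comp_left (g := fun v : V => v r) rfl
  have key := LipschitzWith.integral_lineDeriv_mul_eq (μ := volume) hC hr hcr (-(ev c))
  rw [neg_neg] at key
  have e1 : ∀ y, lineDeriv ℝ (fun y : V => cos (ph R k y + φ)) y (-(ev c))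
      = sin (ph R k y + φ) * ((k c : ℝ) / R) := by
    intro y
    refine HasLineDerivAt.lineDeriv ?_
    unfold HasLineDerivAt
    simp_rw [smul_neg, ← neg_smul, ph_add]
    have h1 : HasDerivAt (fun s : ℝ => ph R k y + -s * ((k c : ℝ) / R) + φ)
        (-((k c : ℝ) / R)) 0 := by
      simpa using (((hasDerivAt_id (0 : ℝ)).neg.mul_const ((k c : ℝ) / R)).const_add
        (ph R k y)).add_const φ
    simpa using h1.cos
  have e2 : ∀ᵐ y, lineDeriv ℝ (fun y => ϑ y r) y (ev c) * cos (ph R k y + φ)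
      = cos (ph R k y + φ) * jac ϑ y r c := by
    filter_upwards [h.ae_differentiableAt (μ := volume)] with y hy
    have h1 : HasFDerivAt (fun y => ϑ y r)
        ((ContinuousLinearMap.proj r : V →L[ℝ] ℝ).comp (fderiv ℝ ϑ y)) y :=
      (ContinuousLinearMap.proj r : V →L[ℝ] ℝ).hasFDerivAt.comp y hy.hasFDerivAt
    rw [(h1.hasLineDerivAt (ev c)).lineDeriv, mul_comm]
    rfl
  rw [← integral_congr_ae e2, ← key]
  simp_rw [e1]
  rw [← integral_const_mul, ← integral_mul_const]
  congr 1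
  ext y
  ring

theorem modulus {W : E → ℝ} (hW : Continuous W) (F₀ : E) (C : ℝ) {ε : ℝ} (hε : 0 < ε) :
    ∃ L : ℝ, 0 ≤ L ∧ ∀ a b : E, ‖a‖ ≤ C → ‖b‖ ≤ C →
      W (F₀ + a) ≤ W (F₀ + b) + ε + L * ‖a - b‖ := by
  have hc : Continuous fun a : E => W (F₀ + a) := hW.comp (continuous_const.add continuous_id)
  have hK : IsCompact (Metric.closedBall (0 : E) C) := isCompact_closedBall _ _
  obtain ⟨δ, hδ, hu⟩ := Metric.uniformContinuousOn_iff.1
    (hK.uniformContinuousOn_of_continuous hc.continuousOn) ε hε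
  obtain ⟨B, hB⟩ := hK.exists_bound_of_continuousOn hc.continuousOn
  refine ⟨2 * |B| / δ, by positivity, fun a b ha hb => ?_⟩
  have ha' : a ∈ Metric.closedBall (0 : E) C := by simpa using ha
  have hb' : b ∈ Metric.closedBall (0 : E) C := by simpa using hb
  by_cases hd : dist a b < δ
  · have := hu a ha' b hb' hd
    rw [Real.dist_eq, abs_lt] at this
    have h2 : 0 ≤ 2 * |B| / δ * ‖a - b‖ := by positivity
    linarith [this.2]
  · rw [not_lt, dist_eq_norm] at hd
    have h1 := hB a ha'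
    have h2 := hB b hb'
    rw [Real.norm_eq_abs, abs_le] at h1 h2
    have h3 : 2 * |B| / δ * δ ≤ 2 * |B| / δ * ‖a - b‖ :=
      mul_le_mul_of_nonneg_left hd (by positivity)
    rw [div_mul_cancel₀ _ hδ.ne'] at h3
    linarith [h1.2, h2.1, le_abs_self B]

theorem integrableOn_W {W : E → ℝ} (hW : Continuous W) (F₀ : E) {g : V → E} (hg : Measurable g)
    {C : ℝ} (hC : ∀ x, ‖g x‖ ≤ C) {s : Set V} (hs : volume s ≠ ⊤) :
    IntegrableOn (fun x => W (F₀ + g x)) s volume := by
  have hc : Continuous fun a : E => W (F₀ + a) := hW.comp (continuous_const.add continuous_id)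
  obtain ⟨B, hB⟩ := (isCompact_closedBall (0 : E) C).exists_bound_of_continuousOn hc.continuousOn
  refine Measure.integrableOn_of_bounded (M := B) hs
    (hc.measurable.comp hg).aestronglyMeasurable (Eventually.of_forall fun x => ?_)
  exact hB _ (by simpa using hC x)

/-- Quasiconvexity with Lipschitz test maps on bounded open sets. -/
def QC (W : E → ℝ) : Prop :=
  ∀ F₀ : E, ∀ Ω : Set V, IsOpen Ω → Bornology.IsBounded Ω →
    ∀ ϑ : V → V, (∃ L, LipschitzWith L ϑ) → (∀ x, x ∉ Ω → ϑ x = 0) →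
      W F₀ * (volume Ω).toReal ≤ ∫ x in Ω, W (F₀ + jac ϑ x)

theorem TQC.qc {W : E → ℝ} (hT : TQC W) (hW : Continuous W) : QC W := by
  rintro F₀ Ω hΩ hb ϑ ⟨L, hL⟩ h0
  obtain ⟨ρ, hρ, hsub⟩ := hb.subset_closedBall_lt 0 (0 : V)
  have hΩQ : Ω ⊆ Q ρ := by
    intro x hx
    have h1 : ‖x‖ ≤ ρ := by simpa using hsub hx
    refine mem_Q.2 fun i => ?_
    have h2 := (norm_le_pi_norm x i).trans h1
    rw [Real.norm_eq_abs, abs_le] at h2
    have h3 : ρ ≤ π * ρ := by nlinarith [pi_gt_three]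
    constructor <;> linarith [h2.1, h2.2]
  have hcs : HasCompactSupport ϑ :=
    HasCompactSupport.intro (isCompact_Q ρ) fun x hx => h0 x fun hx' => hx (hΩQ hx')
  have hz := jac_ae_zero hΩ h0
  have hgb := norm_jac_le hL
  have hfin := (volume_Q_lt_top ρ).ne
  have hg : IntegrableOn (jac ϑ) (Q ρ) volume :=
    Measure.integrableOn_of_bounded (M := L) hfin (measurable_jac ϑ).aestronglyMeasurable
      (Eventually.of_forall hgb)
  have iW : IntegrableOn (fun x => W (F₀ + jac ϑ x)) (Q ρ) volume :=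
    integrableOn_W hW F₀ (measurable_jac ϑ) hgb hfin
  have step1 : ∀ n, W F₀ * (volume (Q ρ)).toReal ≤ ∫ x in Q ρ, W (F₀ + app ρ n (jac ϑ) x) := by
    intro n
    obtain ⟨ι, _, k, φ, b, hrep⟩ := app_eq_trig ρ n
    rw [hrep _ hg]
    have := hT ρ hρ ι k φ
      (fun i r => b i * (ρ⁻¹ * ∫ y, sin (ph ρ (k i) y + φ i) * ϑ y r)) F₀
    refine this.trans (le_of_eq ?_)
    congr 1
    ext x
    congr 3
    ext i r c
    symm
    have hc := continuous_ph ρ (k i)
    have i1 : IntegrableOn (fun y => cos (ph ρ (k i) y + φ i) • jac ϑ y) (Q ρ) volume :=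
      IntegrableOn.continuousOn_smul hg (by fun_prop) (isCompact_Q ρ)
    have e : (∫ y in Q ρ, cos (ph ρ (k i) y + φ i) • jac ϑ y) r c
        = ∫ y in Q ρ, cos (ph ρ (k i) y + φ i) * jac ϑ y r c := by
      have := ((ContinuousLinearMap.proj c : V →L[ℝ] ℝ).comp
        (ContinuousLinearMap.proj r : E →L[ℝ] V)).integral_comp_comm i1
      simpa using this.symm
    rw [Pi.smul_apply, Pi.smul_apply, e, setIntegral_eq_integral_of_ae_compl_eq_zero,
      fourier_jac hL hcs, smul_eq_mul, ← mul_assoc]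
    filter_upwards [hz] with y hy hyQ
    rw [hy fun h => hyQ (hΩQ h)]
    simp
  have step2 : W F₀ * (volume (Q ρ)).toReal ≤ ∫ x in Q ρ, W (F₀ + jac ϑ x) := by
    refine le_of_forall_pos_le_add fun ε hε => ?_
    set m : ℝ := (volume (Q ρ)).toReal with hm
    have hm0 : 0 ≤ m := ENNReal.toReal_nonneg
    obtain ⟨Λ, hΛ, hmod⟩ := modulus hW F₀ L (show 0 < ε / (2 * (m + 1)) by positivity)
    obtain ⟨n, hn⟩ := exists_app_close ρ hρ hg (show 0 < ε / (2 * (Λ + 1)) by positivity)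
    have ca := continuous_app ρ n hg
    have i2 : IntegrableOn (fun x => ‖app ρ n (jac ϑ) x - jac ϑ x‖) (Q ρ) volume :=
      ((integrableOn_Q ρ ca).sub hg).norm
    have i3 : IntegrableOn (fun _ : V => ε / (2 * (m + 1))) (Q ρ) volume :=
      integrableOn_const hfin
    have i4 : IntegrableOn (fun x => W (F₀ + jac ϑ x) + ε / (2 * (m + 1))) (Q ρ) volume :=
      iW.add i3
    have i5 : IntegrableOn (fun x => Λ * ‖app ρ n (jac ϑ) x - jac ϑ x‖) (Q ρ) volume :=
      i2.const_mul Λ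
    have h1 : ∫ x in Q ρ, W (F₀ + app ρ n (jac ϑ) x) ≤
        ∫ x in Q ρ, (W (F₀ + jac ϑ x) + ε / (2 * (m + 1))
          + Λ * ‖app ρ n (jac ϑ) x - jac ϑ x‖) :=
      integral_mono (integrableOn_Q ρ (hW.comp (continuous_const.add ca))) (i4.add i5)
        fun x => hmod _ _ (norm_app_le ρ hρ n hgb x) (hgb x)
    rw [integral_add i4 i5, integral_add iW i3, integral_const_mul, integral_const,
      measureReal_restrict_apply_univ, smul_eq_mul] at h1
    have h2 : volume.real (Q ρ) * (ε / (2 * (m + 1))) ≤ ε / 2 := by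
      change m * (ε / (2 * (m + 1))) ≤ ε / 2
      rw [mul_div_assoc', div_le_div_iff₀ (by positivity) (by positivity)]
      nlinarith
    have h3 : Λ * ∫ x in Q ρ, ‖app ρ n (jac ϑ) x - jac ϑ x‖ ≤ ε / 2 := by
      refine (mul_le_mul_of_nonneg_left hn hΛ).trans ?_
      rw [mul_div_assoc', div_le_div_iff₀ (by positivity) (by positivity)]
      nlinarith
    linarith [step1 n]
  have hsplit : ∫ x in Q ρ, W (F₀ + jac ϑ x)
      = (∫ x in Ω, W (F₀ + jac ϑ x)) + ∫ x in Q ρ \ Ω, W (F₀ + jac ϑ x) := by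
    rw [← setIntegral_union disjoint_sdiff_right ((measurableSet_Q ρ).diff hΩ.measurableSet)
      (iW.mono_set hΩQ) (iW.mono_set sdiff_subset), union_sdiff_cancel hΩQ]
  have hout : ∫ x in Q ρ \ Ω, W (F₀ + jac ϑ x) = W F₀ * (volume (Q ρ \ Ω)).toReal := by
    rw [setIntegral_congr_ae ((measurableSet_Q ρ).diff hΩ.measurableSet) (g := fun _ => W F₀)]
    · rw [integral_const, measureReal_restrict_apply_univ, smul_eq_mul, mul_comm]
      rfl
    · filter_upwards [hz] with y hy hyQ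
      rw [hy hyQ.2, add_zero]
  have hvol : (volume (Q ρ)).toReal = (volume Ω).toReal + (volume (Q ρ \ Ω)).toReal := by
    have := measureReal_union (μ := volume) (s₁ := Ω) (s₂ := Q ρ \ Ω) disjoint_sdiff_right
      ((measurableSet_Q ρ).diff hΩ.measurableSet)
      (ne_top_of_le_ne_top hfin (measure_mono hΩQ))
      (ne_top_of_le_ne_top hfin (measure_mono sdiff_subset))
    rw [union_sdiff_cancel hΩQ] at this
    exact this
  rw [hsplit, hout, hvol] at step2
  linarith

end Pool.Agent.MP_515557_an.H11
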